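import Pool.Agent.Lib.MP_5deb6a_an.Svd

/-!
# MP_5deb6a_an: compression to finite dimensional subspaces
-/

set_option autoImplicit false

namespace Pool.Agent.Lib.MP_5deb6a_an

open Finset Module Filter Topology
open scoped InnerProductSpace ENNReal

variable {H : Type*} [NormedAddCommGroup H] [InnerProductSpace ℂ H]

section Cmp

variable (K : Submodule ℂ H) [FiniteDimensional ℂ K]

/-- the compression of an operator to a subspace -/
noncomputable def cmp (A : H →L[ℂ] H) : K →L[ℂ] K :=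
  K.orthogonalProjectionOnto ∘L A ∘L K.subtypeL

/-- the extension by zero of an operator on a subspace -/
noncomputable def ext0 (X : K →L[ℂ] K) : H →L[ℂ] H :=
  K.subtypeL ∘L X ∘L K.orthogonalProjectionOnto

/-- the error -/
noncomputable def err (A : H →L[ℂ] H) : H →L[ℂ] H := A - ext0 K (cmp K A)

theorem err_apply (A : H →L[ℂ] H) (x : H) :
    err K A x = A x - K.starProjection (A (K.starProjection x)) := rfl

theorem norm_cmp_le (A : H →L[ℂ] H) : ‖cmp K A‖ ≤ ‖A‖ := by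
  refine ContinuousLinearMap.opNorm_le_bound _ (norm_nonneg _) fun x => ?_
  have h1 : ‖cmp K A x‖ ≤ ‖A (x : H)‖ := K.norm_orthogonalProjectionOnto_apply_le (A (x : H))
  exact h1.trans (A.le_opNorm _)

theorem norm_ext0_le (X : K →L[ℂ] K) : ‖ext0 K X‖ ≤ ‖X‖ := by
  refine ContinuousLinearMap.opNorm_le_bound _ (norm_nonneg X) fun x => ?_
  have h1 : ‖ext0 K X x‖ = ‖X (K.orthogonalProjectionOnto x)‖ := rfl
  rw [h1]
  refine (X.le_opNorm _).trans ?_
  exact mul_le_mul_of_nonneg_left (K.norm_orthogonalProjectionOnto_apply_le x) (norm_nonneg _)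

theorem cmp_sub (A B : H →L[ℂ] H) : cmp K (A - B) = cmp K A - cmp K B := by
  ext x
  simp [cmp]

theorem ext0_sub (X Y : K →L[ℂ] K) : ext0 K (X - Y) = ext0 K X - ext0 K Y := by
  ext x
  simp [ext0]

theorem rank_cmp_le (A : H →L[ℂ] H) :
    LinearMap.rank (cmp K A : K →ₗ[ℂ] K) ≤ LinearMap.rank (A : H →ₗ[ℂ] H) := by
  have h1 : (cmp K A : K →ₗ[ℂ] K) = (K.orthogonalProjectionOnto : H →ₗ[ℂ] K).comp
      ((A : H →ₗ[ℂ] H).comp (K.subtypeL : K →ₗ[ℂ] H)) := rfl
  rw [h1]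
  exact (LinearMap.rank_comp_le_right _ _).trans (LinearMap.rank_comp_le_left _ _)

theorem rank_ext0_le (X : K →L[ℂ] K) :
    LinearMap.rank (ext0 K X : H →ₗ[ℂ] H) ≤ LinearMap.rank (X : K →ₗ[ℂ] K) := by
  have h1 : (ext0 K X : H →ₗ[ℂ] H) = (K.subtypeL : K →ₗ[ℂ] H).comp
      ((X : K →ₗ[ℂ] K).comp (K.orthogonalProjectionOnto : H →ₗ[ℂ] K)) := rfl
  rw [h1]
  exact (LinearMap.rank_comp_le_right _ _).trans (LinearMap.rank_comp_le_left _ _)

theorem enorm_le_of_norm_le {E F : Type*} [NormedAddCommGroup E] [NormedAddCommGroup F] {x : E}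
    {y : F} (h : ‖x‖ ≤ ‖y‖) : ‖x‖ₑ ≤ ‖y‖ₑ := by
  rw [← ofReal_norm, ← ofReal_norm]
  exact ENNReal.ofReal_le_ofReal h

/-- compressing does not increase the singular numbers -/
theorem sNum_cmp_le (A : H →L[ℂ] H) (i : ℕ) : sNum (cmp K A) i ≤ sNum A i := by
  refine le_iInf₂ fun G hG => ?_
  refine (sNum_le ((rank_cmp_le K G).trans hG)).trans ?_
  rw [← cmp_sub]
  exact enorm_le_of_norm_le (norm_cmp_le K _)

/-- lower bound for the singular numbers of the compression -/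
theorem sNum_sub_le (A : H →L[ℂ] H) {ε : ℝ} (h : ‖err K A‖ ≤ ε) (i : ℕ) :
    sNum A i - ENNReal.ofReal ε ≤ sNum (cmp K A) i := by
  refine le_iInf₂ fun G hG => ?_
  rw [tsub_le_iff_right]
  refine (sNum_le ((rank_ext0_le K G).trans hG)).trans ?_
  have h1 : A - ext0 K G = ext0 K (cmp K A - G) + err K A := by
    rw [ext0_sub, err]
    abel
  rw [h1]
  refine (enorm_add_le (ext0 K (cmp K A - G)) (err K A)).trans (add_le_add ?_ ?_)
  · exact enorm_le_of_norm_le (norm_ext0_le K _)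
  · rw [← ofReal_norm]
    exact ENNReal.ofReal_le_ofReal h

end Cmp

/-- a common subspace for finitely many operators whose singular numbers tend to zero -/
theorem exists_subspace [CompleteSpace H] {I : Type*} [Finite I] (A : I → H →L[ℂ] H)
    (hA : ∀ x, Tendsto (sNum (A x)) atTop (𝓝 0)) {ε : ℝ} (hε : 0 < ε) :
    ∃ (K : Submodule ℂ H) (_ : FiniteDimensional ℂ K), ∀ x, ‖err K (A x)‖ ≤ ε := by
  classical
  have h1 : ∀ x, ∃ G : H →L[ℂ] H, FiniteDimensional ℂ (LinearMap.range (G : H →ₗ[ℂ] H)) ∧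
      ‖A x - G‖ ≤ ε / 2 := by
    intro x
    have hε2 : (0 : ℝ≥0∞) < ENNReal.ofReal (ε / 2) := by
      rw [ENNReal.ofReal_pos]
      positivity
    obtain ⟨i, hi⟩ := ((hA x).eventually_lt_const hε2).exists
    unfold sNum at hi
    simp only [iInf_lt_iff] at hi
    obtain ⟨G, hG, hlt⟩ := hi
    refine ⟨G, ?_, ?_⟩
    · have h2 : LinearMap.rank (G : H →ₗ[ℂ] H) < Cardinal.aleph0 :=
        hG.trans_lt (Cardinal.natCast_lt_aleph0)
      exact Module.rank_lt_aleph0_iff.mp h2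
    · rw [← ofReal_norm] at hlt
      exact ((ENNReal.ofReal_lt_ofReal_iff (by positivity)).mp hlt).le
  choose G hGfin hG using h1
  have hker : ∀ x, FiniteDimensional ℂ ((LinearMap.ker (G x : H →ₗ[ℂ] H))ᗮ : Submodule ℂ H) := by
    intro x
    have := hGfin x
    set L : ((LinearMap.ker (G x : H →ₗ[ℂ] H))ᗮ : Submodule ℂ H) →ₗ[ℂ]
      LinearMap.range (G x : H →ₗ[ℂ] H) :=
        ((G x : H →ₗ[ℂ] H).rangeRestrict).comp
          ((LinearMap.ker (G x : H →ₗ[ℂ] H))ᗮ : Submodule ℂ H).subtype with hL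
    have hinj : Function.Injective L := by
      rw [← LinearMap.ker_eq_bot, Submodule.eq_bot_iff]
      intro y hy
      have h2 : (G x : H →ₗ[ℂ] H) (y : H) = 0 := congrArg Subtype.val (LinearMap.mem_ker.mp hy)
      have h3 : (y : H) ∈ LinearMap.ker (G x : H →ₗ[ℂ] H) := h2
      have h4 : ⟪(y : H), (y : H)⟫_ℂ = 0 := y.2 _ h3
      exact Subtype.ext (inner_self_eq_zero.mp h4)
    exact Module.Finite.of_injective L hinj
  set K : Submodule ℂ H := ⨆ x, (LinearMap.range (G x : H →ₗ[ℂ] H) ⊔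
    (LinearMap.ker (G x : H →ₗ[ℂ] H))ᗮ) with hK
  have hKfin : FiniteDimensional ℂ K := by
    have : ∀ x, FiniteDimensional ℂ (LinearMap.range (G x : H →ₗ[ℂ] H) ⊔
      (LinearMap.ker (G x : H →ₗ[ℂ] H))ᗮ : Submodule ℂ H) := by
      intro x
      have := hGfin x
      have := hker x
      exact Submodule.finiteDimensional_sup _ _
    exact Submodule.finiteDimensional_iSup _
  refine ⟨K, hKfin, fun x => ?_⟩
  have hQ1 : ∀ y, K.starProjection (G x y) = G x y := by
    intro y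
    rw [Submodule.starProjection_eq_self_iff]
    exact (le_sup_left.trans (le_iSup (fun x => LinearMap.range (G x : H →ₗ[ℂ] H) ⊔
      (LinearMap.ker (G x : H →ₗ[ℂ] H))ᗮ) x)) ⟨y, rfl⟩
  have hQ2 : ∀ y, G x (K.starProjection y) = G x y := by
    intro y
    have h2 : (LinearMap.ker (G x : H →ₗ[ℂ] H))ᗮ ≤ K :=
      le_sup_right.trans (le_iSup (fun x => LinearMap.range (G x : H →ₗ[ℂ] H) ⊔
        (LinearMap.ker (G x : H →ₗ[ℂ] H))ᗮ) x)
    have h3 : y - K.starProjection y ∈ (LinearMap.ker (G x : H →ₗ[ℂ] H))ᗮᗮ :=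
      Submodule.orthogonal_le h2 (K.sub_starProjection_mem_orthogonal y)
    have : CompleteSpace (LinearMap.ker (G x : H →ₗ[ℂ] H)) :=
      (G x).isClosed_ker.completeSpace_coe
    rw [Submodule.orthogonal_orthogonal] at h3
    have h4 : G x (y - K.starProjection y) = 0 := h3
    rw [map_sub, sub_eq_zero] at h4
    exact h4.symm
  refine ContinuousLinearMap.opNorm_le_bound _ hε.le fun y => ?_
  have h5 : err K (A x) y = (A x - G x) y - K.starProjection ((A x - G x) (K.starProjection y)) := by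
    rw [err_apply, _root_.sub_apply, _root_.sub_apply, map_sub, hQ2, hQ1]
    abel
  rw [h5]
  have h6 : ‖(A x - G x) y‖ ≤ ε / 2 * ‖y‖ := by
    refine ((A x - G x).le_opNorm y).trans ?_
    exact mul_le_mul_of_nonneg_right (hG x) (norm_nonneg _)
  have h7 : ‖K.starProjection ((A x - G x) (K.starProjection y))‖ ≤ ε / 2 * ‖y‖ := by
    refine (K.norm_starProjection_apply_le _).trans ?_
    refine ((A x - G x).le_opNorm _).trans ?_
    exact mul_le_mul (hG x) (K.norm_starProjection_apply_le y) (norm_nonneg _) (by positivity)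
  calc ‖(A x - G x) y - K.starProjection ((A x - G x) (K.starProjection y))‖
      ≤ ‖(A x - G x) y‖ + ‖K.starProjection ((A x - G x) (K.starProjection y))‖ := norm_sub_le _ _
    _ ≤ ε / 2 * ‖y‖ + ε / 2 * ‖y‖ := add_le_add h6 h7
    _ = ε * ‖y‖ := by ring

/-- the singular numbers tend to zero when the Schatten sum is finite -/
theorem tendsto_sNum {p : ℝ} (hp : 0 < p) (A : H →L[ℂ] H) (h : ∑' i, sNum A i ^ p ≠ ⊤) :
    Tendsto (sNum A) atTop (𝓝 0) := by
  have h1 := ENNReal.tendsto_atTop_zero_of_tsum_ne_top h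
  have h2 := Tendsto.ennrpow_const (1 / p) h1
  rw [ENNReal.zero_rpow_of_pos (by positivity)] at h2
  refine h2.congr fun i => ?_
  rw [← ENNReal.rpow_mul, mul_one_div_cancel hp.ne', ENNReal.rpow_one]

section Limit

variable {Λ : Type*} [Fintype Λ]

omit [Fintype Λ] in
theorem tendsto_trunc (s : Λ → ℕ → ℝ≥0∞) (p : ℝ) (α : Λ) (m : ℕ) :
    Tendsto (fun ε : ℝ => ∑ i ∈ range m, (s α i - ENNReal.ofReal ε) ^ p) (𝓝[>] 0)
      (𝓝 (∑ i ∈ range m, s α i ^ p)) := by
  refine tendsto_finsetSum _ fun i _ => Tendsto.ennrpow_const p ?_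
  have h1 : Tendsto (fun ε : ℝ => ENNReal.ofReal ε) (𝓝[>] 0) (𝓝 0) := by
    have h2 := (ENNReal.continuous_ofReal.tendsto (0 : ℝ)).mono_left
      (nhdsWithin_le_nhds (s := Set.Ioi (0 : ℝ)))
    rwa [ENNReal.ofReal_zero] at h2
  have h3 := ENNReal.Tendsto.sub (tendsto_const_nhds (x := s α i)) h1 (Or.inr ENNReal.zero_ne_top)
  rwa [tsub_zero] at h3

/-- removing the truncation: outer sum of powers -/
theorem limit_outer (s : Λ → ℕ → ℝ≥0∞) (p a : ℝ) (R : ℝ≥0∞)
    (h : ∀ m, ∀ ε : ℝ, 0 < ε → ∑ α, (∑ i ∈ range m, (s α i - ENNReal.ofReal ε) ^ p) ^ a ≤ R) :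
    ∑ α, (∑' i, s α i ^ p) ^ a ≤ R := by
  have h1 : ∀ m, ∑ α, (∑ i ∈ range m, s α i ^ p) ^ a ≤ R := by
    intro m
    refine le_of_tendsto (f := fun ε : ℝ => ∑ α, (∑ i ∈ range m,
      (s α i - ENNReal.ofReal ε) ^ p) ^ a) (x := 𝓝[>] (0 : ℝ)) ?_ ?_
    · exact tendsto_finsetSum _ fun α _ => Tendsto.ennrpow_const a
        (tendsto_trunc s p α m)
    · filter_upwards [self_mem_nhdsWithin] with ε hε
      exact h m ε hε
  refine le_of_tendsto (f := fun m : ℕ => ∑ α, (∑ i ∈ range m, s α i ^ p) ^ a)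
    (x := atTop) ?_ (Eventually.of_forall h1)
  exact tendsto_finsetSum _ fun α _ => Tendsto.ennrpow_const a (ENNReal.tendsto_nat_tsum _)

/-- removing the truncation: power of the sum -/
theorem limit_inner (s : Λ → ℕ → ℝ≥0∞) (p a : ℝ) (c R : ℝ≥0∞) (hc : c ≠ ⊤)
    (h : ∀ m, ∀ ε : ℝ, 0 < ε →
      c * (∑ α, ∑ i ∈ range m, (s α i - ENNReal.ofReal ε) ^ p) ^ a ≤ R) :
    c * (∑ α, ∑' i, s α i ^ p) ^ a ≤ R := by
  have h1 : ∀ m, c * (∑ α, ∑ i ∈ range m, s α i ^ p) ^ a ≤ R := by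
    intro m
    refine le_of_tendsto (f := fun ε : ℝ => c * (∑ α, ∑ i ∈ range m,
      (s α i - ENNReal.ofReal ε) ^ p) ^ a) (x := 𝓝[>] (0 : ℝ)) ?_ ?_
    · refine ENNReal.Tendsto.const_mul ?_ (Or.inr hc)
      refine Tendsto.ennrpow_const a ?_
      exact tendsto_finsetSum _ fun α _ => tendsto_trunc s p α m
    · filter_upwards [self_mem_nhdsWithin] with ε hε
      exact h m ε hε
  refine le_of_tendsto (f := fun m : ℕ => c * (∑ α, ∑ i ∈ range m, s α i ^ p) ^ a)
    (x := atTop) ?_ (Eventually.of_forall h1)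
  refine ENNReal.Tendsto.const_mul ?_ (Or.inr hc)
  refine Tendsto.ennrpow_const a ?_
  exact tendsto_finsetSum _ fun α _ => ENNReal.tendsto_nat_tsum _

end Limit

end Pool.Agent.Lib.MP_5deb6a_an
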