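import Mathlib

/-!
# MP_5deb6a_an: the bilinear inequality behind the Clarkson inequalities for `n`-tuples

Three lines theorem between the Hilbert-Schmidt estimate and the trace class / operator norm
estimate. `T` is a real matrix with columns of norm `√c`, orthogonal to each other, and entries of
absolute value at most one.
-/

set_option autoImplicit false

namespace Pool.Agent.Lib.MP_5deb6a_an

open Complex Finset
open scoped InnerProductSpace

/-- `a ^ s` for `0 ≤ a`, entire in `s`, equal to `0` for `a = 0` -/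
noncomputable def pw (a : ℝ) (s : ℂ) : ℂ := if a = 0 then 0 else Complex.exp (s * (Real.log a : ℂ))

theorem norm_pw {a : ℝ} (ha : 0 < a) (s : ℂ) : ‖pw a s‖ = a ^ s.re := by
  unfold pw
  rw [if_neg ha.ne', Complex.norm_exp, Complex.re_mul_ofReal, Real.rpow_def_of_pos ha, mul_comm]

theorem norm_pw_le_one {a : ℝ} (ha : 0 ≤ a) {s : ℂ} (hs : s.re = 0) : ‖pw a s‖ ≤ 1 := by
  rcases ha.eq_or_lt with h | h
  · rw [← h]
    simp [pw]
  · rw [norm_pw h, hs, Real.rpow_zero]

theorem norm_pw_of_ne {a : ℝ} (ha : 0 ≤ a) {s : ℂ} (hs : s.re ≠ 0) : ‖pw a s‖ = a ^ s.re := by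
  rcases ha.eq_or_lt with h | h
  · rw [← h, Real.zero_rpow hs]
    simp [pw]
  · exact norm_pw h s

theorem norm_pw_bound {a : ℝ} (ha : 0 ≤ a) {s : ℂ} (h0 : 0 ≤ s.re) (h1 : s.re ≤ 1) :
    ‖pw a s‖ ≤ 1 + a := by
  rcases ha.eq_or_lt with h | h
  · rw [← h]
    simp [pw]
  · rw [norm_pw h]
    rcases le_total a 1 with h2 | h2
    · have := Real.rpow_le_one h.le h2 h0
      linarith
    · have := Real.rpow_le_rpow_of_exponent_le h2 h1
      rw [Real.rpow_one] at this
      linarith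

theorem pw_real {a : ℝ} (ha : 0 ≤ a) {t : ℝ} (ht : t ≠ 0) : pw a (t : ℂ) = ((a ^ t : ℝ) : ℂ) := by
  rcases ha.eq_or_lt with h | h
  · rw [← h, Real.zero_rpow ht]
    simp [pw]
  · unfold pw
    rw [if_neg h.ne', Real.rpow_def_of_pos h]
    push_cast
    rw [mul_comm]

theorem differentiable_pw (a : ℝ) {g : ℂ → ℂ} (hg : Differentiable ℂ g) :
    Differentiable ℂ fun z => pw a (g z) := by
  unfold pw
  by_cases h : a = 0
  · simp only [h, if_true]
    exact differentiable_const 0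
  · simp only [h, if_false]
    exact (hg.mul_const _).cexp

section HS

variable {K : Type*} [NormedAddCommGroup K] [InnerProductSpace ℂ K] [FiniteDimensional ℂ K]
  {ι : Type*} [Fintype ι]

/-- the Hilbert-Schmidt norm does not depend on the basis -/
theorem hs_basis (Z : K →ₗ[ℂ] K) (b b' : OrthonormalBasis ι ℂ K) :
    ∑ l, ‖Z (b l)‖ ^ 2 = ∑ l, ‖Z (b' l)‖ ^ 2 := by
  have key : ∀ b' : OrthonormalBasis ι ℂ K,
      ∑ l, ‖Z (b' l)‖ ^ 2 = ∑ m, ‖(LinearMap.adjoint Z) (b m)‖ ^ 2 := by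
    intro b'
    have h1 : ∀ l, ‖Z (b' l)‖ ^ 2 = ∑ m, ‖⟪b m, Z (b' l)⟫_ℂ‖ ^ 2 := fun l =>
      (b.sum_sq_norm_inner_right _).symm
    have h2 : ∀ m, ‖(LinearMap.adjoint Z) (b m)‖ ^ 2 = ∑ l, ‖⟪(LinearMap.adjoint Z) (b m), b' l⟫_ℂ‖ ^ 2 :=
      fun m => (b'.sum_sq_norm_inner_left _).symm
    simp only [h1, h2]
    rw [sum_comm]
    refine sum_congr rfl fun m _ => sum_congr rfl fun l _ => ?_
    rw [LinearMap.adjoint_inner_left]
  rw [key b, key b']

/-- the diagonal operator with coefficients `a` from the basis `e` to the basis `f` -/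
noncomputable def dg (a : ι → ℂ) (e f : OrthonormalBasis ι ℂ K) : K →ₗ[ℂ] K :=
  ∑ i, a i • (innerₛₗ ℂ (e i)).smulRight (f i)

omit [FiniteDimensional ℂ K] in
theorem dg_apply (a : ι → ℂ) (e f : OrthonormalBasis ι ℂ K) (x : K) :
    dg a e f x = ∑ i, (a i * ⟪e i, x⟫_ℂ) • f i := by
  unfold dg
  rw [LinearMap.sum_apply]
  refine sum_congr rfl fun i _ => ?_
  rw [LinearMap.smul_apply, LinearMap.smulRight_apply, smul_smul]
  rfl

omit [FiniteDimensional ℂ K] in
theorem dg_basis (a : ι → ℂ) (e f : OrthonormalBasis ι ℂ K) (k : ι) :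
    dg a e f (e k) = a k • f k := by
  classical
  rw [dg_apply, Finset.sum_eq_single k]
  · rw [e.inner_eq_one, mul_one]
  · intro i _ hi
    rw [e.inner_eq_zero hi, mul_zero, zero_smul]
  · intro h
    exact absurd (mem_univ k) h

end HS

end Pool.Agent.Lib.MP_5deb6a_an
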