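import Mathlib

/-!
# MP_5deb6a_an: singular numbers and Schatten norms of bounded operators
-/

set_option autoImplicit false

namespace Pool.Agent.Lib.MP_5deb6a_an

open scoped ENNReal

variable {E F : Type*} [NormedAddCommGroup E] [InnerProductSpace ℂ E] [NormedAddCommGroup F]
  [InnerProductSpace ℂ F]

/-- The `i`-th singular number (`i = 0, 1, 2, …`) of a bounded operator `A`: its distance, in the
operator norm, from the set of the bounded operators of rank at most `i`. For a compact operator on
a Hilbert space these are the singular values in decreasing order (`sNum A 0 = ‖A‖`). -/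
noncomputable def sNum (A : E →L[ℂ] F) (i : ℕ) : ℝ≥0∞ :=
  ⨅ (G : E →L[ℂ] F) (_ : LinearMap.rank (G : E →ₗ[ℂ] F) ≤ (i : Cardinal)), ‖A - G‖ₑ

/-- The Schatten `p`-norm, in `[0, ∞]`, of a bounded operator: `(∑ᵢ sᵢ(A) ^ p) ^ (1 / p)`. The
Schatten class consists of the operators for which it is finite. -/
noncomputable def schatten (p : ℝ) (A : E →L[ℂ] F) : ℝ≥0∞ := (∑' i, sNum A i ^ p) ^ (1 / p)

end Pool.Agent.Lib.MP_5deb6a_an
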