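import Pool.Agent.Lib.MP_5deb6a_an.Core
import Pool.Agent.Lib.MP_5deb6a_an.Defs

/-!
# MP_5deb6a_an: singular value decomposition and approximation numbers in finite dimension
-/

set_option autoImplicit false

namespace Pool.Agent.Lib.MP_5deb6a_an

open Finset Module
open scoped InnerProductSpace ENNReal

section SVD

variable {K : Type*} [NormedAddCommGroup K] [InnerProductSpace ℂ K] [FiniteDimensional ℂ K]

/-- singular value decomposition -/
theorem exists_svd (X : K →ₗ[ℂ] K) :
    ∃ e f : OrthonormalBasis (Fin (finrank ℂ K)) ℂ K,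
      ∀ i, X (e i) = (X.singularValues (i : ℕ) : ℂ) • f i := by
  classical
  have hS := X.isSymmetric_adjoint_comp_self
  set e := hS.eigenvectorBasis rfl with he
  have h1 : ∀ i j, ⟪X (e i), X (e j)⟫_ℂ = (X.singularValues (j : ℕ) : ℂ) ^ 2 * ⟪e i, e j⟫_ℂ := by
    intro i j
    have h2 := hS.apply_eigenvectorBasis rfl j
    rw [← he, LinearMap.comp_apply] at h2
    have h3 := X.sq_singularValues_fin rfl j
    rw [← LinearMap.adjoint_inner_right, h2, inner_smul_right, ← h3]
    simp
  have h4 : ∀ i, ‖X (e i)‖ = X.singularValues (i : ℕ) := by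
    intro i
    have h5 := h1 i i
    rw [e.inner_eq_one, mul_one, inner_self_eq_norm_sq_to_K] at h5
    have h7 : ((‖X (e i)‖ ^ 2 : ℝ) : ℂ) = ((X.singularValues (i : ℕ) ^ 2 : ℝ) : ℂ) := by
      rw [Complex.ofReal_pow, Complex.ofReal_pow]
      exact h5
    have h6 : ‖X (e i)‖ ^ 2 = X.singularValues (i : ℕ) ^ 2 := Complex.ofReal_injective h7
    exact (sq_eq_sq₀ (norm_nonneg _) (X.singularValues_nonneg _)).mp h6
  have hcard : finrank ℂ K = Fintype.card (Fin (finrank ℂ K)) := (Fintype.card_fin _).symm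
  have horth : Pairwise fun i j => ⟪X (e i), X (e j)⟫_ℂ = 0 := by
    intro i j hij
    rw [h1, e.inner_eq_zero hij, mul_zero]
  refine ⟨e, InnerProductSpace.gramSchmidtOrthonormalBasis hcard (fun i => X (e i)), fun i => ?_⟩
  by_cases hi : X (e i) = 0
  · have h5 : X.singularValues (i : ℕ) = 0 := by
      rw [← h4, hi, norm_zero]
    rw [hi, h5]
    simp
  · rw [InnerProductSpace.gramSchmidtOrthonormalBasis_apply_of_orthogonal hcard horth hi, ← h4,
      smul_smul]
    have h7 : ((‖X (e i)‖ : ℝ) : ℂ) ≠ 0 := Complex.ofReal_ne_zero.mpr (norm_ne_zero_iff.mpr hi)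
    have h8 : ((‖X (e i)‖ : ℝ) : ℂ) * ((‖X (e i)‖ : ℝ) : ℂ)⁻¹ = 1 := mul_inv_cancel₀ h7
    calc X (e i) = (1 : ℂ) • X (e i) := (one_smul _ _).symm
      _ = (((‖X (e i)‖ : ℝ) : ℂ) * ((‖X (e i)‖ : ℝ) : ℂ)⁻¹) • X (e i) := by rw [h8]

omit [FiniteDimensional ℂ K] in
/-- the diagonal form -/
theorem eq_dg {ι : Type*} [Fintype ι] (X : K →ₗ[ℂ] K) (a : ι → ℂ) (e f : OrthonormalBasis ι ℂ K)
    (h : ∀ i, X (e i) = a i • f i) : X = dg a e f := by
  refine e.toBasis.ext fun i => ?_
  rw [OrthonormalBasis.coe_toBasis, dg_basis, h]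

omit [FiniteDimensional ℂ K] in
theorem dg_norm_sq {ι : Type*} [Fintype ι] (a : ι → ℂ) (e f : OrthonormalBasis ι ℂ K) (x : K) :
    ‖dg a e f x‖ ^ 2 = ∑ i, ‖a i‖ ^ 2 * ‖⟪e i, x⟫_ℂ‖ ^ 2 := by
  classical
  rw [← f.sum_sq_norm_inner_right (dg a e f x)]
  refine sum_congr rfl fun i _ => ?_
  rw [dg_apply, inner_sum, sum_eq_single i]
  · rw [inner_smul_right, f.inner_eq_one, mul_one, norm_mul, mul_pow]
  · intro j _ hj
    rw [inner_smul_right, f.inner_eq_zero (Ne.symm hj), mul_zero]
  · intro h
    exact absurd (mem_univ i) h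

end SVD

section SNum

variable {E F : Type*} [NormedAddCommGroup E] [InnerProductSpace ℂ E] [NormedAddCommGroup F]
  [InnerProductSpace ℂ F]

theorem sNum_le {A G : E →L[ℂ] F} {i : ℕ} (h : LinearMap.rank (G : E →ₗ[ℂ] F) ≤ (i : Cardinal)) :
    sNum A i ≤ ‖A - G‖ₑ := iInf₂_le G h

theorem sNum_ne_top (A : E →L[ℂ] F) (i : ℕ) : sNum A i ≠ ⊤ := by
  have h : sNum A i ≤ ‖A - 0‖ₑ := by
    refine sNum_le ?_
    rw [ContinuousLinearMap.toLinearMap_zero, LinearMap.rank_zero]
    exact zero_le
  exact ne_top_of_le_ne_top enorm_ne_top h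

end SNum

section FinDim

variable {K : Type*} [NormedAddCommGroup K] [InnerProductSpace ℂ K] [FiniteDimensional ℂ K]

theorem rank_eq_natCast (G : K →ₗ[ℂ] K) : LinearMap.rank G = (finrank ℂ (LinearMap.range G) : Cardinal) :=
  (finrank_eq_rank ℂ (LinearMap.range G)).symm

/-- in finite dimension the singular numbers are the singular values -/
theorem sNum_eq (X : K →L[ℂ] K) (i : ℕ) :
    sNum X i = ENNReal.ofReal ((X : K →ₗ[ℂ] K).singularValues i) := by
  classical
  obtain ⟨e, f, hef⟩ := exists_svd (X : K →ₗ[ℂ] K)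
  set s := (X : K →ₗ[ℂ] K).singularValues with hs
  have hX : (X : K →ₗ[ℂ] K) = dg (fun k : Fin (finrank ℂ K) => (s (k : ℕ) : ℂ)) e f := eq_dg _ _ _ _ hef
  have hnn : ∀ k, 0 ≤ s k := (X : K →ₗ[ℂ] K).singularValues_nonneg
  have hanti : Antitone s := (X : K →ₗ[ℂ] K).singularValues_antitone
  refine le_antisymm ?_ ?_
  · -- the truncated operator
    set a : Fin (finrank ℂ K) → ℂ := fun k => if (k : ℕ) < i then (s (k : ℕ) : ℂ) else 0 with ha
    set b : Fin (finrank ℂ K) → ℂ := fun k => if (k : ℕ) < i then 0 else (s (k : ℕ) : ℂ) with hb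
    set G : K →L[ℂ] K := LinearMap.toContinuousLinearMap (dg a e f) with hG
    have hGX : ∀ x, (X - G) x = dg b e f x := by
      intro x
      have h1 : X x = dg (fun k : Fin (finrank ℂ K) => (s (k : ℕ) : ℂ)) e f x := by
        rw [← hX]
        rfl
      have h2 : G x = dg a e f x := rfl
      rw [_root_.sub_apply, h1, h2, dg_apply, dg_apply, dg_apply,
        ← sum_sub_distrib]
      refine sum_congr rfl fun k _ => ?_
      rw [← sub_smul, ha, hb]
      simp only
      split_ifs <;> ring_nf
    have hrank : LinearMap.rank (G : K →ₗ[ℂ] K) ≤ (i : Cardinal) := by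
      have hG' : (G : K →ₗ[ℂ] K) = dg a e f := by
        ext x
        rfl
      have hle : LinearMap.range (dg a e f) ≤
          Submodule.span ℂ ((univ.filter fun k : Fin (finrank ℂ K) => (k : ℕ) < i).image f : Set K) := by
        rintro y ⟨x, rfl⟩
        rw [dg_apply]
        refine Submodule.sum_mem _ fun k _ => ?_
        by_cases hk : (k : ℕ) < i
        · refine Submodule.smul_mem _ _ (Submodule.subset_span ?_)
          rw [mem_coe, mem_image]
          exact ⟨k, mem_filter.mpr ⟨mem_univ _, hk⟩, rfl⟩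
        · rw [ha]
          simp only [hk, if_false, zero_mul, zero_smul]
          exact Submodule.zero_mem _
      rw [hG', rank_eq_natCast]
      have h1 := Submodule.finrank_mono hle
      have h2 := finrank_span_finset_le_card (R := ℂ)
        ((univ.filter fun k : Fin (finrank ℂ K) => (k : ℕ) < i).image f)
      have h3 : #((univ.filter fun k : Fin (finrank ℂ K) => (k : ℕ) < i).image f) ≤ i := by
        refine card_image_le.trans ?_
        refine (card_le_card_of_injOn (fun k : Fin (finrank ℂ K) => (k : ℕ)) (t := range i)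
          ?_ ?_).trans (card_range i).le
        · intro k hk
          have hk' := (mem_filter.mp (mem_coe.mp hk)).2
          exact mem_coe.mpr (mem_range.mpr hk')
        · intro k _ l _ hkl
          exact Fin.ext hkl
      exact_mod_cast h1.trans (h2.trans h3)
    refine (sNum_le hrank).trans ?_
    rw [← ofReal_norm]
    refine ENNReal.ofReal_le_ofReal ?_
    refine ContinuousLinearMap.opNorm_le_bound _ (hnn i) fun x => ?_
    refine le_of_sq_le_sq ?_ (mul_nonneg (hnn i) (norm_nonneg x))
    rw [hGX, dg_norm_sq, mul_pow, ← e.sum_sq_norm_inner_right x, mul_sum]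
    refine sum_le_sum fun k _ => mul_le_mul_of_nonneg_right ?_ (sq_nonneg _)
    rw [hb]
    simp only
    split_ifs with hk
    · rw [norm_zero, zero_pow two_ne_zero]
      exact sq_nonneg _
    · rw [Complex.norm_real, Real.norm_eq_abs, sq_abs]
      exact pow_le_pow_left₀ (hnn _) (hanti (not_lt.mp hk)) 2
  · refine le_iInf₂ fun G hG => ?_
    by_cases hi : finrank ℂ K ≤ i
    · rw [hs, LinearMap.singularValues_of_finrank_le _ hi, ENNReal.ofReal_zero]
      exact zero_le
    have hi' : i < finrank ℂ K := not_le.mp hi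
    rw [rank_eq_natCast, Nat.cast_le] at hG
    -- the span of the first `i + 1` vectors
    set L : (Fin (i + 1) → ℂ) →ₗ[ℂ] K :=
      Fintype.linearCombination ℂ (fun k : Fin (i + 1) => e ⟨k, by omega⟩) with hL
    have hker : ∃ t : Fin (i + 1) → ℂ, t ≠ 0 ∧ G (L t) = 0 := by
      by_contra hcon
      push Not at hcon
      have hinj : Function.Injective ((G : K →ₗ[ℂ] K).comp L) := by
        rw [← LinearMap.ker_eq_bot, Submodule.eq_bot_iff]
        intro t ht
        by_contra h0
        exact hcon t h0 ht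
      have h1 := LinearMap.finrank_range_of_inj hinj
      have h2 : finrank ℂ (LinearMap.range ((G : K →ₗ[ℂ] K).comp L)) ≤
          finrank ℂ (LinearMap.range (G : K →ₗ[ℂ] K)) :=
        Submodule.finrank_mono (LinearMap.range_comp_le_range _ _)
      rw [h1, Module.finrank_fin_fun] at h2
      omega
    obtain ⟨t, ht, hGt⟩ := hker
    have hin : ∀ k : Fin (finrank ℂ K), ⟪e k, L t⟫_ℂ = if h : (k : ℕ) < i + 1 then t ⟨k, h⟩ else 0 := by
      intro k
      rw [hL, Fintype.linearCombination_apply, inner_sum]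
      split_ifs with h
      · rw [sum_eq_single (⟨k, h⟩ : Fin (i + 1))]
        · rw [inner_smul_right, e.inner_eq_one, mul_one]
        · intro l _ hl
          rw [inner_smul_right, e.inner_eq_zero, mul_zero]
          intro hkl
          refine hl (Fin.ext ?_)
          exact (congrArg Fin.val hkl).symm
        · intro h'
          exact absurd (mem_univ _) h'
      · refine sum_eq_zero fun l _ => ?_
        rw [inner_smul_right, e.inner_eq_zero, mul_zero]
        intro hkl
        refine h ?_
        rw [hkl]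
        exact l.isLt
    have hLt : L t ≠ 0 := by
      intro h0
      refine ht (funext fun l => ?_)
      have h1 := hin ⟨l, by omega⟩
      rw [h0, inner_zero_right] at h1
      rw [dif_pos l.isLt] at h1
      exact h1.symm
    have hpos : 0 < ‖L t‖ := norm_pos_iff.mpr hLt
    have hkey : s i * ‖L t‖ ≤ ‖(X - G) (L t)‖ := by
      refine le_of_sq_le_sq ?_ (norm_nonneg _)
      have h1 : (X - G) (L t) = dg (fun k : Fin (finrank ℂ K) => (s (k : ℕ) : ℂ)) e f (L t) := by
        rw [_root_.sub_apply, hGt, sub_zero, ← hX]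
        rfl
      rw [h1, dg_norm_sq, mul_pow, ← e.sum_sq_norm_inner_right (L t), mul_sum]
      refine sum_le_sum fun k _ => ?_
      by_cases hk : (k : ℕ) < i + 1
      · refine mul_le_mul_of_nonneg_right ?_ (sq_nonneg _)
        rw [Complex.norm_real, Real.norm_eq_abs, sq_abs]
        exact pow_le_pow_left₀ (hnn _) (hanti (by omega)) 2
      · rw [hin k, dif_neg hk]
        simp
    have hfin : s i ≤ ‖X - G‖ := by
      have h2 := (X - G).le_opNorm (L t)
      exact le_of_mul_le_mul_right (hkey.trans h2) hpos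
    rw [← ofReal_norm]
    exact ENNReal.ofReal_le_ofReal hfin

end FinDim

end Pool.Agent.Lib.MP_5deb6a_an
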