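import Pool.Agent.Lib.MP_5deb6a_an.Ineq
import Pool.Agent.Lib.MP_5deb6a_an.Svd

/-!
# MP_5deb6a_an: the two Clarkson inequalities for a matrix `T` with orthogonal columns and bounded
entries, for operators on a finite dimensional space
-/

set_option autoImplicit false

namespace Pool.Agent.Lib.MP_5deb6a_an

open Complex Finset Module
open scoped InnerProductSpace

section Mat

variable {J Λ : Type*} [Fintype J] [Fintype Λ] [DecidableEq J]

/-- orthogonal columns: the vector identity -/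
theorem col_identity {K : Type*} [NormedAddCommGroup K] [InnerProductSpace ℂ K]
    {T : Λ → J → ℝ} {c : ℝ} (hort : ∀ j k, ∑ α, T α j * T α k = if j = k then c else 0)
    (x : J → K) : ∑ α, ‖∑ j, (T α j : ℂ) • x j‖ ^ 2 = c * ∑ j, ‖x j‖ ^ 2 := by
  have h1 : ∀ y : K, ((‖y‖ ^ 2 : ℝ) : ℂ) = ⟪y, y⟫_ℂ := by
    intro y
    rw [inner_self_eq_norm_sq_to_K, Complex.ofReal_pow]
    rfl
  have h2 : ((∑ α, ‖∑ j, (T α j : ℂ) • x j‖ ^ 2 : ℝ) : ℂ) = ((c * ∑ j, ‖x j‖ ^ 2 : ℝ) : ℂ) := by
    rw [Complex.ofReal_sum, Complex.ofReal_mul, Complex.ofReal_sum, mul_sum]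
    calc ∑ α, ((‖∑ j, (T α j : ℂ) • x j‖ ^ 2 : ℝ) : ℂ)
        = ∑ α, ∑ j, ∑ k, ((T α j * T α k : ℝ) : ℂ) * ⟪x j, x k⟫_ℂ := by
          refine sum_congr rfl fun α _ => ?_
          rw [h1, sum_inner]
          refine sum_congr rfl fun j _ => ?_
          rw [inner_sum]
          refine sum_congr rfl fun k _ => ?_
          rw [inner_smul_left, inner_smul_right, Complex.conj_ofReal]
          push_cast
          ring
      _ = ∑ j, ∑ k, ((∑ α, T α j * T α k : ℝ) : ℂ) * ⟪x j, x k⟫_ℂ := by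
          rw [sum_comm]
          refine sum_congr rfl fun j _ => ?_
          rw [sum_comm]
          refine sum_congr rfl fun k _ => ?_
          rw [Complex.ofReal_sum, sum_mul]
      _ = ∑ j, (c : ℂ) * ((‖x j‖ ^ 2 : ℝ) : ℂ) := by
          refine sum_congr rfl fun j _ => ?_
          rw [sum_eq_single j]
          · rw [hort, if_pos rfl, h1]
          · intro k _ hk
            rw [hort, if_neg (Ne.symm hk), Complex.ofReal_zero, zero_mul]
          · intro h
            exact absurd (mem_univ j) h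
  exact Complex.ofReal_injective h2

/-- orthogonal columns: inversion -/
theorem col_inverse {M : Type*} [AddCommGroup M] [Module ℂ M]
    {T : Λ → J → ℝ} {c : ℝ} (hort : ∀ j k, ∑ α, T α j * T α k = if j = k then c else 0)
    (x : J → M) (k : J) : ∑ α, (T α k : ℂ) • ∑ j, (T α j : ℂ) • x j = (c : ℂ) • x k := by
  calc ∑ α, (T α k : ℂ) • ∑ j, (T α j : ℂ) • x j
      = ∑ α, ∑ j, ((T α k * T α j : ℝ) : ℂ) • x j := by
        refine sum_congr rfl fun α _ => ?_
        rw [smul_sum]
        refine sum_congr rfl fun j _ => ?_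
        rw [smul_smul, Complex.ofReal_mul]
    _ = ∑ j, ((∑ α, T α k * T α j : ℝ) : ℂ) • x j := by
        rw [sum_comm]
        refine sum_congr rfl fun j _ => ?_
        rw [Complex.ofReal_sum, sum_smul]
    _ = (c : ℂ) • x k := by
        rw [sum_eq_single k]
        · rw [hort, if_pos rfl]
        · intro j _ hj
          rw [hort, if_neg (Ne.symm hj), Complex.ofReal_zero, zero_smul]
        · intro h
          exact absurd (mem_univ k) h

end Mat

section Bil2

variable {K : Type*} [NormedAddCommGroup K] [InnerProductSpace ℂ K]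
  {ι : Type*} [Fintype ι] {J Λ : Type*} [Fintype J] [Fintype Λ]

theorem bil_eq_left (T : Λ → J → ℝ) (e f : J → OrthonormalBasis ι ℂ K)
    (u v : Λ → OrthonormalBasis ι ℂ K) (a : J → ι → ℂ) (b : Λ → ι → ℝ) :
    bil T e f u v a (fun α l => (b α l : ℂ)) =
      ∑ j, ∑ i, a j i *
        ⟪∑ α, (T α j : ℂ) • dg (fun l => (b α l : ℂ)) (u α) (v α) (e j i), f j i⟫_ℂ := by
  unfold bil
  rw [sum_comm]
  refine sum_congr rfl fun j _ => ?_
  rw [sum_comm]
  refine sum_congr rfl fun i _ => ?_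
  rw [sum_inner, mul_sum]
  refine sum_congr rfl fun α _ => ?_
  rw [inner_smul_left, Complex.conj_ofReal, dg_apply, sum_inner, mul_sum, mul_sum]
  refine sum_congr rfl fun l _ => ?_
  rw [inner_smul_left, map_mul, Complex.conj_ofReal, inner_conj_symm]
  ring

end Bil2

section RealPow

/-- absorbing a power -/
theorem le_of_le_mul_rpow {p q : ℝ} (hq : 0 < q) (hpq : 1 / p + 1 / q = 1) {A B : ℝ}
    (hA : 0 ≤ A) (hB : 0 ≤ B) (h : A ≤ B * A ^ (1 / p)) : A ≤ B ^ q := by
  rcases hA.eq_or_lt with h0 | h0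
  · rw [← h0]
    positivity
  have h1 : A = A ^ (1 / q) * A ^ (1 / p) := by
    rw [← Real.rpow_add h0, add_comm, hpq, Real.rpow_one]
  have h2 : A ^ (1 / q) ≤ B := by
    have h3 : A ^ (1 / q) * A ^ (1 / p) ≤ B * A ^ (1 / p) := by
      rw [← h1]
      exact h
    exact le_of_mul_le_mul_right h3 (Real.rpow_pos_of_pos h0 _)
  have h4 := Real.rpow_le_rpow (Real.rpow_nonneg hA _) h2 hq.le
  rwa [← Real.rpow_mul hA, one_div, inv_mul_cancel₀ hq.ne', Real.rpow_one] at h4

variable {ι : Type*} [Fintype ι]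

theorem normalized_sum_le (t : ι → ℝ) (p : ℝ) :
    ∑ l, t l ^ p / (∑ l, t l ^ p) ≤ 1 := by
  rw [← sum_div]
  exact div_self_le_one _

/-- the weights for `r = q`, `r' = p` -/
theorem weight_one {p q : ℝ} (hp : 0 < p) (hq : 0 < q) {t : ι → ℝ} (ht : ∀ l, 0 ≤ t l) (l : ι) :
    ((∑ l, t l ^ p) ^ (q / p)) ^ (1 / q) * (t l ^ p / (∑ l, t l ^ p)) ^ (1 / p) = t l := by
  set P := ∑ l, t l ^ p with hP
  have hP0 : 0 ≤ P := sum_nonneg fun l _ => Real.rpow_nonneg (ht l) _
  have h1 : t l ^ p ≤ P := single_le_sum (fun l _ => Real.rpow_nonneg (ht l) _) (mem_univ l)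
  rcases hP0.eq_or_lt with h0 | h0
  · have h2 : t l ^ p = 0 := le_antisymm (by rw [h0]; exact h1) (Real.rpow_nonneg (ht l) _)
    have h3 : t l = 0 := by
      by_contra h4
      have h5 := Real.rpow_pos_of_pos (lt_of_le_of_ne (ht l) (Ne.symm h4)) p
      exact h5.ne' h2
    rw [h2, zero_div, Real.zero_rpow (by positivity), mul_zero, h3]
  · rw [Real.div_rpow (Real.rpow_nonneg (ht l) _) hP0, ← Real.rpow_mul hP0, ← Real.rpow_mul (ht l)]
    have h2 : q / p * (1 / q) = 1 / p := by field_simp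
    have h3 : p * (1 / p) = 1 := by field_simp
    rw [h2, h3, Real.rpow_one]
    have h4 : P ^ (1 / p) ≠ 0 := (Real.rpow_pos_of_pos h0 _).ne'
    field_simp

/-- the weights for `r = p`, `r' = q` -/
theorem weight_two {p q : ℝ} (hp : 0 < p) (hq : 0 < q) (hpq : 1 / p + 1 / q = 1)
    {t : ι → ℝ} (ht : ∀ l, 0 ≤ t l) :
    ∑ l, ((∑ l, t l ^ p) ^ (q / p)) ^ (1 / p) * (t l ^ p / (∑ l, t l ^ p)) ^ (1 / q) * t l =
      (∑ l, t l ^ p) ^ (q / p) := by
  set P := ∑ l, t l ^ p with hP
  have hP0 : 0 ≤ P := sum_nonneg fun l _ => Real.rpow_nonneg (ht l) _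
  rcases hP0.eq_or_lt with h0 | h0
  · rw [← h0, Real.zero_rpow (by positivity), Real.zero_rpow (by positivity)]
    simp
  · have h1 : ∀ l, (t l ^ p / P) ^ (1 / q) * t l = t l ^ p / P ^ (1 / q) := by
      intro l
      rw [Real.div_rpow (Real.rpow_nonneg (ht l) _) hP0, ← Real.rpow_mul (ht l), div_mul_eq_mul_div]
      congr 1
      rcases (ht l).eq_or_lt with h2 | h2
      · rw [← h2, mul_zero, Real.zero_rpow hp.ne']
      · have h3 : p * (1 / q) + 1 = p := by
          have h4 : 1 / q = 1 - 1 / p := by linarith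
          rw [h4, mul_sub]
          field_simp
          ring
        conv_lhs => rw [← Real.rpow_one (t l)]
        rw [← Real.rpow_mul h2.le, one_mul, ← Real.rpow_add h2, h3]
    simp only [mul_assoc]
    have h2 : P / P ^ (1 / q) = P ^ (1 - 1 / q) := by
      rw [Real.rpow_sub h0, Real.rpow_one]
    have h3 : q / p * (1 / p) + (1 - 1 / q) = q / p := by
      have h4 : q * (1 / q) = 1 := by field_simp
      have h5 : 1 / q = 1 - 1 / p := by linarith
      have h6 : q / p = q * (1 / p) := by ring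
      rw [h5] at h4
      rw [h6, h5]
      linear_combination (-(1 / p)) * h4
    rw [← mul_sum, sum_congr rfl fun l _ => h1 l, ← sum_div, ← hP, ← Real.rpow_mul hP0, h2,
      ← Real.rpow_add h0, h3]

end RealPow

section Main

variable {K : Type*} [NormedAddCommGroup K] [InnerProductSpace ℂ K] [FiniteDimensional ℂ K]
  {J Λ : Type*} [Fintype J] [Fintype Λ] [DecidableEq J] [Nonempty Λ]

/-- the sum of the `p`-th powers of the singular values -/
noncomputable def sp (p : ℝ) (X : K →ₗ[ℂ] K) : ℝ :=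
  ∑ i : Fin (finrank ℂ K), X.singularValues (i : ℕ) ^ p

theorem sp_nonneg (p : ℝ) (X : K →ₗ[ℂ] K) : 0 ≤ sp p X :=
  sum_nonneg fun _ _ => Real.rpow_nonneg (X.singularValues_nonneg _) _

/-- the second inequality: `1 < p ≤ 2` -/
theorem clarkson_two {T : Λ → J → ℝ} {c : ℝ} (hc : 0 ≤ c)
    (hort : ∀ j k, ∑ α, T α j * T α k = if j = k then c else 0) (hT1 : ∀ α j, |T α j| ≤ 1)
    {p q : ℝ} (hp : 1 < p) (hp2 : p ≤ 2) (hpq : 1 / p + 1 / q = 1) (C : J → K →ₗ[ℂ] K) :
    ∑ α, sp p (∑ j, (T α j : ℂ) • C j) ^ (q / p) ≤ c * (∑ j, sp p (C j)) ^ (q / p) := by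
  have hp0 : 0 < p := by linarith
  have hq0 : 0 < q := by
    have h1 : 1 / p < 1 := by
      rw [div_lt_one hp0]
      exact hp
    have h2 : 0 < 1 / q := by linarith
    exact one_div_pos.mp h2
  choose e f hef using fun j => exists_svd (C j)
  choose u v huv using fun α => exists_svd (∑ j, (T α j : ℂ) • C j)
  set B : Λ → K →ₗ[ℂ] K := fun α => ∑ j, (T α j : ℂ) • C j with hB
  set s : J → Fin (finrank ℂ K) → ℝ := fun j i => (C j).singularValues (i : ℕ) with hs
  set t : Λ → Fin (finrank ℂ K) → ℝ := fun α l => (B α).singularValues (l : ℕ) with ht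
  have hs0 : ∀ j i, 0 ≤ s j i := fun j i => (C j).singularValues_nonneg _
  have ht0 : ∀ α l, 0 ≤ t α l := fun α l => (B α).singularValues_nonneg _
  have hP0 : ∀ α, 0 ≤ sp p (B α) := fun α => sp_nonneg p _
  have main := bil_interp hc (col_identity (K := K) hort) hT1 e f u v
    (x := fun j i => s j i ^ p) (w := fun α => sp p (B α) ^ (q / p))
    (y := fun α l => t α l ^ p / sp p (B α))
    (fun j i => Real.rpow_nonneg (hs0 j i) _) (fun α => Real.rpow_nonneg (hP0 α) _)
    (fun α l => div_nonneg (Real.rpow_nonneg (ht0 α l) _) (hP0 α))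
    (fun α => normalized_sum_le (t α) p) hp hp2 hpq
  have hX : ∑ j, ∑ i, s j i ^ p = ∑ j, sp p (C j) := rfl
  rw [hX] at main
  set X := ∑ j, sp p (C j) with hXdef
  set W := ∑ α, sp p (B α) ^ (q / p) with hW
  have hX0 : 0 ≤ X := sum_nonneg fun j _ => sp_nonneg p _
  have hW0 : 0 ≤ W := sum_nonneg fun α _ => Real.rpow_nonneg (hP0 α) _
  have hbil : bil T e f u v (fun j i => (((s j i ^ p) ^ (1 / p) : ℝ) : ℂ))
      (fun α l => (((sp p (B α) ^ (q / p)) ^ (1 / p) *
        (t α l ^ p / sp p (B α)) ^ (1 / q) : ℝ) : ℂ)) = ((W : ℝ) : ℂ) := by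
    rw [bil_eq, hW, Complex.ofReal_sum]
    refine sum_congr rfl fun α _ => ?_
    have h1 : ∀ l, ∑ j, (T α j : ℂ) • dg (fun i => (((s j i ^ p) ^ (1 / p) : ℝ) : ℂ)) (e j) (f j)
        (u α l) = (t α l : ℂ) • v α l := by
      intro l
      rw [← huv α l, LinearMap.sum_apply]
      refine sum_congr rfl fun j _ => ?_
      have h2 : C j = dg (fun i => (((s j i ^ p) ^ (1 / p) : ℝ) : ℂ)) (e j) (f j) := by
        refine eq_dg _ _ _ _ fun i => ?_
        rw [hef, ← Real.rpow_mul (hs0 j i), mul_one_div_cancel hp0.ne', Real.rpow_one]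
      rw [← h2, LinearMap.smul_apply]
    have h3 := weight_two hp0 hq0 hpq (ht0 α)
    have h4 : ∑ l, t α l ^ p = sp p (B α) := rfl
    rw [h4] at h3
    have h3' := congrArg (fun z : ℝ => (z : ℂ)) h3
    beta_reduce at h3'
    rw [Complex.ofReal_sum] at h3'
    refine Eq.trans (sum_congr rfl fun l _ => ?_) h3'
    rw [h1, inner_smul_right, (v α).inner_eq_one, mul_one, ← Complex.ofReal_mul]
  rw [hbil, Complex.norm_real, Real.norm_eq_abs, abs_of_nonneg hW0] at main
  have h5 := le_of_le_mul_rpow hq0 hpq hW0 (by positivity) main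
  refine h5.trans (le_of_eq ?_)
  rw [Real.mul_rpow (by positivity) (by positivity), ← Real.rpow_mul hc, ← Real.rpow_mul hX0,
    one_div_mul_cancel hq0.ne', Real.rpow_one, one_div_mul_eq_div]

/-- the first inequality: `2 ≤ p` -/
theorem clarkson_one {T : Λ → J → ℝ} {c : ℝ} (hc : 0 < c)
    (hort : ∀ j k, ∑ α, T α j * T α k = if j = k then c else 0) (hT1 : ∀ α j, |T α j| ≤ 1)
    {p q : ℝ} (hp2 : 2 ≤ p) (hpq : 1 / p + 1 / q = 1) (C : J → K →ₗ[ℂ] K) :
    c * (∑ j, sp p (C j)) ^ (q / p) ≤ ∑ α, sp p (∑ j, (T α j : ℂ) • C j) ^ (q / p) := by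
  have hp0 : 0 < p := by linarith
  have hpinv : 1 / p ≤ 1 / 2 := one_div_le_one_div_of_le (by norm_num) hp2
  have hpinv0 : 0 < 1 / p := by positivity
  have hqinv : 0 < 1 / q := by linarith
  have hq0 : 0 < q := one_div_pos.mp hqinv
  have hq1 : 1 < q := by
    have h1 : 1 / q < 1 := by linarith
    rwa [div_lt_one hq0] at h1
  have hq2 : q ≤ 2 := by
    have h1 : 1 / 2 ≤ 1 / q := by linarith
    exact (one_div_le_one_div (by norm_num) hq0).mp h1
  choose e f hef using fun j => exists_svd (C j)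
  choose u v huv using fun α => exists_svd (∑ j, (T α j : ℂ) • C j)
  set B : Λ → K →ₗ[ℂ] K := fun α => ∑ j, (T α j : ℂ) • C j with hB
  set s : J → Fin (finrank ℂ K) → ℝ := fun j i => (C j).singularValues (i : ℕ) with hs
  set t : Λ → Fin (finrank ℂ K) → ℝ := fun α l => (B α).singularValues (l : ℕ) with ht
  have hs0 : ∀ j i, 0 ≤ s j i := fun j i => (C j).singularValues_nonneg _
  have ht0 : ∀ α l, 0 ≤ t α l := fun α l => (B α).singularValues_nonneg _
  have hP0 : ∀ α, 0 ≤ sp p (B α) := fun α => sp_nonneg p _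
  have hqp : 1 / q + 1 / p = 1 := by linarith
  have main := bil_interp hc.le (col_identity (K := K) hort) hT1 e f u v
    (x := fun j i => s j i ^ p) (w := fun α => sp p (B α) ^ (q / p))
    (y := fun α l => t α l ^ p / sp p (B α))
    (fun j i => Real.rpow_nonneg (hs0 j i) _) (fun α => Real.rpow_nonneg (hP0 α) _)
    (fun α l => div_nonneg (Real.rpow_nonneg (ht0 α l) _) (hP0 α))
    (fun α => normalized_sum_le (t α) p) hq1 hq2 hqp
  have hX : ∑ j, ∑ i, s j i ^ p = ∑ j, sp p (C j) := rfl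
  rw [hX] at main
  set X := ∑ j, sp p (C j) with hXdef
  set W := ∑ α, sp p (B α) ^ (q / p) with hW
  have hX0 : 0 ≤ X := sum_nonneg fun j _ => sp_nonneg p _
  have hW0 : 0 ≤ W := sum_nonneg fun α _ => Real.rpow_nonneg (hP0 α) _
  have hbil : bil T e f u v (fun j i => (((s j i ^ p) ^ (1 / q) : ℝ) : ℂ))
      (fun α l => (((sp p (B α) ^ (q / p)) ^ (1 / q) *
        (t α l ^ p / sp p (B α)) ^ (1 / p) : ℝ) : ℂ)) = ((c * X : ℝ) : ℂ) := by
    have h0 : ∀ α l, (sp p (B α) ^ (q / p)) ^ (1 / q) * (t α l ^ p / sp p (B α)) ^ (1 / p) =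
        t α l := fun α l => weight_one hp0 hq0 (ht0 α) l
    simp only [h0]
    rw [bil_eq_left]
    have h1 : ∀ α, dg (fun l => (t α l : ℂ)) (u α) (v α) = ∑ j, (T α j : ℂ) • C j := by
      intro α
      exact (eq_dg _ _ _ _ fun l => huv α l).symm
    rw [hXdef, mul_sum, Complex.ofReal_sum]
    refine sum_congr rfl fun j _ => ?_
    unfold sp
    rw [mul_sum, Complex.ofReal_sum]
    refine sum_congr rfl fun i _ => ?_
    have h2 : ∑ α, (T α j : ℂ) • dg (fun l => (t α l : ℂ)) (u α) (v α) (e j i) =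
        (c : ℂ) • (s j i : ℂ) • f j i := by
      have h3 : ∀ α, dg (fun l => (t α l : ℂ)) (u α) (v α) (e j i) =
          ∑ k, (T α k : ℂ) • C k (e j i) := by
        intro α
        rw [h1, LinearMap.sum_apply]
        rfl
      simp only [h3]
      rw [col_inverse hort (fun k => C k (e j i)) j, hef]
    rw [h2, inner_smul_left, inner_smul_left, (f j).inner_eq_one, Complex.conj_ofReal,
      Complex.conj_ofReal, mul_one, ← Complex.ofReal_mul, ← Complex.ofReal_mul]
    congr 1
    have h4 : (s j i ^ p) ^ (1 / q) * s j i = s j i ^ p := by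
      rw [← Real.rpow_mul (hs0 j i)]
      rcases (hs0 j i).eq_or_lt with h2 | h2
      · rw [← h2, mul_zero, Real.zero_rpow hp0.ne']
      · have h3 : p * (1 / q) + 1 = p := by
          have h4 : 1 / q = 1 - 1 / p := by linarith
          rw [h4, mul_sub]
          field_simp
          ring
        conv_lhs => rw [← Real.rpow_one (s j i)]
        rw [← Real.rpow_mul h2.le, one_mul, ← Real.rpow_add h2, h3]
    calc (s j i ^ p) ^ (1 / q) * (c * s j i) = c * ((s j i ^ p) ^ (1 / q) * s j i) := by ring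
      _ = c * s j i ^ p := by rw [h4]
  have hcX : 0 ≤ c * X := mul_nonneg hc.le hX0
  rw [hbil, Complex.norm_real, Real.norm_eq_abs, abs_of_nonneg hcX] at main
  rcases hX0.eq_or_lt with h0 | h0
  · rw [← h0, Real.zero_rpow (by positivity), mul_zero]
    exact hW0
  · have h1 : c * X = (c ^ (1 / p) * X ^ (1 / q)) * (c ^ (1 / q) * X ^ (1 / p)) := by
      have h2 : c ^ (1 / p) * c ^ (1 / q) = c := by
        rw [← Real.rpow_add hc, hpq, Real.rpow_one]
      have h3 : X ^ (1 / q) * X ^ (1 / p) = X := by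
        rw [← Real.rpow_add h0, hqp, Real.rpow_one]
      calc c * X = (c ^ (1 / p) * c ^ (1 / q)) * (X ^ (1 / q) * X ^ (1 / p)) := by rw [h2, h3]
        _ = _ := by ring
    rw [h1] at main
    have h2 : 0 < c ^ (1 / p) * X ^ (1 / q) :=
      mul_pos (Real.rpow_pos_of_pos hc _) (Real.rpow_pos_of_pos h0 _)
    have h3 := le_of_mul_le_mul_left main h2
    have h4 := Real.rpow_le_rpow (by positivity) h3 hq0.le
    rw [Real.mul_rpow (by positivity) (by positivity), ← Real.rpow_mul hc.le,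
      ← Real.rpow_mul hX0, ← Real.rpow_mul hW0, one_div_mul_cancel hq0.ne', Real.rpow_one,
      Real.rpow_one, one_div_mul_eq_div] at h4
    exact h4

end Main

end Pool.Agent.Lib.MP_5deb6a_an
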