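import Pool.Agent.Lib.MP_5deb6a_an.FinDim
import Pool.Agent.Lib.MP_5deb6a_an.Comp

/-!
# MP_5deb6a_an: the two Clarkson inequalities for a real matrix `T` with orthogonal columns of the
same length and entries of absolute value at most one, for bounded operators on a Hilbert space
-/

set_option autoImplicit false

namespace Pool.Agent.Lib.MP_5deb6a_an

open Finset Module Filter Topology
open scoped InnerProductSpace ENNReal

variable {H : Type*} [NormedAddCommGroup H] [InnerProductSpace ℂ H]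
  {J Λ : Type*} [Fintype J] [Fintype Λ]

section Lin

variable (K : Submodule ℂ H) [FiniteDimensional ℂ K]

theorem cmp_sum (a : J → ℝ) (C : J → H →L[ℂ] H) :
    (cmp K (∑ j, (a j : ℂ) • C j) : K →ₗ[ℂ] K) =
      ∑ j, (a j : ℂ) • (cmp K (C j) : K →ₗ[ℂ] K) := by
  ext x
  simp [cmp, LinearMap.sum_apply]

theorem err_sum (a : J → ℝ) (C : J → H →L[ℂ] H) :
    err K (∑ j, (a j : ℂ) • C j) = ∑ j, (a j : ℂ) • err K (C j) := by
  ext x
  simp only [err_apply, _root_.sum_apply, _root_.smul_apply, map_sum,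
    map_smul, smul_sub, sum_sub_distrib]

theorem norm_err_sum_le {a : J → ℝ} (ha : ∀ j, |a j| ≤ 1) (C : J → H →L[ℂ] H) {δ : ℝ}
    (h : ∀ j, ‖err K (C j)‖ ≤ δ) : ‖err K (∑ j, (a j : ℂ) • C j)‖ ≤ Fintype.card J * δ := by
  rw [err_sum]
  refine (norm_sum_le _ _).trans ?_
  calc ∑ j, ‖(a j : ℂ) • err K (C j)‖ ≤ ∑ _j : J, δ := by
        refine sum_le_sum fun j _ => ?_
        rw [norm_smul, Complex.norm_real, Real.norm_eq_abs]
        have h1 := h j
        have h2 := norm_nonneg (err K (C j))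
        calc |a j| * ‖err K (C j)‖ ≤ 1 * ‖err K (C j)‖ :=
              mul_le_mul_of_nonneg_right (ha j) h2
          _ ≤ δ := by rw [one_mul]; exact h1
    _ = Fintype.card J * δ := by rw [sum_const, card_univ, nsmul_eq_mul]

theorem ofReal_sp {p : ℝ} (hp : 0 < p) (X : K →L[ℂ] K) :
    ENNReal.ofReal (sp p (X : K →ₗ[ℂ] K)) = ∑' i, sNum X i ^ p := by
  have h1 : ∀ i, sNum X i ^ p = ENNReal.ofReal ((X : K →ₗ[ℂ] K).singularValues i ^ p) := by
    intro i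
    rw [sNum_eq, ENNReal.ofReal_rpow_of_nonneg ((X : K →ₗ[ℂ] K).singularValues_nonneg i) hp.le]
  rw [tsum_eq_sum (s := range (finrank ℂ K))]
  · unfold sp
    rw [ENNReal.ofReal_sum_of_nonneg fun i _ => Real.rpow_nonneg
      ((X : K →ₗ[ℂ] K).singularValues_nonneg _) _, sum_congr rfl fun i _ => h1 i]
    exact Fin.sum_univ_eq_sum_range
      (fun i => ENNReal.ofReal ((X : K →ₗ[ℂ] K).singularValues i ^ p)) (finrank ℂ K)
  · intro i hi
    rw [mem_range, not_lt] at hi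
    rw [h1, LinearMap.singularValues_of_finrank_le _ hi, Real.zero_rpow hp.ne', ENNReal.ofReal_zero]

theorem ofReal_sp_le {p : ℝ} (hp : 0 < p) (A : H →L[ℂ] H) :
    ENNReal.ofReal (sp p (cmp K A : K →ₗ[ℂ] K)) ≤ ∑' i, sNum A i ^ p := by
  rw [ofReal_sp K hp]
  exact ENNReal.tsum_le_tsum fun i => ENNReal.rpow_le_rpow (sNum_cmp_le K A i) hp.le

theorem trunc_le {p : ℝ} (hp : 0 < p) (A : H →L[ℂ] H) {ε : ℝ} (h : ‖err K A‖ ≤ ε) (m : ℕ) :
    ∑ i ∈ range m, (sNum A i - ENNReal.ofReal ε) ^ p ≤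
      ENNReal.ofReal (sp p (cmp K A : K →ₗ[ℂ] K)) := by
  rw [ofReal_sp K hp]
  refine le_trans ?_ (ENNReal.sum_le_tsum (range m))
  exact sum_le_sum fun i _ => ENNReal.rpow_le_rpow (sNum_sub_le K A h i) hp.le

end Lin

variable [CompleteSpace H] [DecidableEq J] [Nonempty Λ]

/-- the second inequality: `1 < p ≤ 2` -/
theorem general_two {T : Λ → J → ℝ} {c : ℝ} (hc : 0 < c)
    (hort : ∀ j k, ∑ α, T α j * T α k = if j = k then c else 0) (hT1 : ∀ α j, |T α j| ≤ 1)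
    {p q : ℝ} (hp : 1 < p) (hp2 : p ≤ 2) (hpq : 1 / p + 1 / q = 1) (C : J → H →L[ℂ] H) :
    ∑ α, (∑' i, sNum (∑ j, (T α j : ℂ) • C j) i ^ p) ^ (q / p) ≤
      ENNReal.ofReal c * (∑ j, ∑' i, sNum (C j) i ^ p) ^ (q / p) := by
  have hp0 : 0 < p := by linarith
  have hq0 : 0 < q := by
    have h1 : 1 / p < 1 := by
      rw [div_lt_one hp0]
      exact hp
    have h2 : 0 < 1 / q := by linarith
    exact one_div_pos.mp h2
  have hqp : 0 < q / p := by positivity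
  have hc' : ENNReal.ofReal c ≠ 0 := (ENNReal.ofReal_pos.mpr hc).ne'
  by_cases hR : (∑ j, ∑' i, sNum (C j) i ^ p) = ⊤
  · rw [hR, ENNReal.top_rpow_of_pos hqp, ENNReal.mul_top hc']
    exact le_top
  have hfin : ∀ j, ∑' i, sNum (C j) i ^ p ≠ ⊤ := fun j =>
    ENNReal.sum_ne_top.mp hR j (mem_univ j)
  refine limit_outer _ p (q / p) _ fun m ε hε => ?_
  have hcard : (0 : ℝ) < Fintype.card J + 1 := by positivity
  have hδ : 0 < ε / (Fintype.card J + 1) := by positivity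
  obtain ⟨K, hK, hKe⟩ := exists_subspace C (fun j => tendsto_sNum hp0 (C j) (hfin j)) hδ
  have herr : ∀ α, ‖err K (∑ j, (T α j : ℂ) • C j)‖ ≤ ε := by
    intro α
    refine (norm_err_sum_le K (hT1 α) C hKe).trans ?_
    rw [mul_div_assoc', div_le_iff₀ hcard]
    nlinarith
  have main := clarkson_two hc.le hort hT1 hp hp2 hpq (fun j => (cmp K (C j) : K →ₗ[ℂ] K))
  have hsum : ∀ α, ∑ j, (T α j : ℂ) • (cmp K (C j) : K →ₗ[ℂ] K) =
      (cmp K (∑ j, (T α j : ℂ) • C j) : K →ₗ[ℂ] K) := fun α => (cmp_sum K (T α) C).symm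
  simp only [hsum] at main
  calc ∑ α, (∑ i ∈ range m, (sNum (∑ j, (T α j : ℂ) • C j) i - ENNReal.ofReal ε) ^ p) ^ (q / p)
      ≤ ∑ α, ENNReal.ofReal (sp p (cmp K (∑ j, (T α j : ℂ) • C j) : K →ₗ[ℂ] K)) ^ (q / p) :=
        sum_le_sum fun α _ => ENNReal.rpow_le_rpow (trunc_le K hp0 _ (herr α) m) hqp.le
    _ = ENNReal.ofReal (∑ α, sp p (cmp K (∑ j, (T α j : ℂ) • C j) : K →ₗ[ℂ] K) ^ (q / p)) := by
        rw [ENNReal.ofReal_sum_of_nonneg fun α _ => Real.rpow_nonneg (sp_nonneg _ _) _]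
        exact sum_congr rfl fun α _ => ENNReal.ofReal_rpow_of_nonneg (sp_nonneg _ _) hqp.le
    _ ≤ ENNReal.ofReal (c * (∑ j, sp p (cmp K (C j) : K →ₗ[ℂ] K)) ^ (q / p)) :=
        ENNReal.ofReal_le_ofReal main
    _ = ENNReal.ofReal c * (∑ j, ENNReal.ofReal (sp p (cmp K (C j) : K →ₗ[ℂ] K))) ^ (q / p) := by
        rw [ENNReal.ofReal_mul hc.le, ← ENNReal.ofReal_rpow_of_nonneg
          (sum_nonneg fun j _ => sp_nonneg _ _) hqp.le,
          ENNReal.ofReal_sum_of_nonneg fun j _ => sp_nonneg _ _]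
    _ ≤ ENNReal.ofReal c * (∑ j, ∑' i, sNum (C j) i ^ p) ^ (q / p) := by
        gcongr with j _
        exact ofReal_sp_le K hp0 (C j)

/-- the first inequality: `2 ≤ p` -/
theorem general_one {T : Λ → J → ℝ} {c : ℝ} (hc : 0 < c)
    (hort : ∀ j k, ∑ α, T α j * T α k = if j = k then c else 0) (hT1 : ∀ α j, |T α j| ≤ 1)
    {p q : ℝ} (hp2 : 2 ≤ p) (hpq : 1 / p + 1 / q = 1) (C : J → H →L[ℂ] H) :
    ENNReal.ofReal c * (∑ j, ∑' i, sNum (C j) i ^ p) ^ (q / p) ≤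
      ∑ α, (∑' i, sNum (∑ j, (T α j : ℂ) • C j) i ^ p) ^ (q / p) := by
  have hp0 : 0 < p := by linarith
  have hq0 : 0 < q := by
    have hpinv : 1 / p ≤ 1 / 2 := one_div_le_one_div_of_le (by norm_num) hp2
    have hqinv : 0 < 1 / q := by linarith
    exact one_div_pos.mp hqinv
  have hqp : 0 < q / p := by positivity
  by_cases hR : ∑ α, (∑' i, sNum (∑ j, (T α j : ℂ) • C j) i ^ p) ^ (q / p) = ⊤
  · rw [hR]
    exact le_top
  have hfin : ∀ α, ∑' i, sNum (∑ j, (T α j : ℂ) • C j) i ^ p ≠ ⊤ := by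
    intro α h
    refine ENNReal.sum_ne_top.mp hR α (mem_univ α) ?_
    rw [h, ENNReal.top_rpow_of_pos hqp]
  refine limit_inner _ p (q / p) _ _ ENNReal.ofReal_ne_top fun m ε hε => ?_
  have hcard : (0 : ℝ) < Fintype.card Λ + 1 := by positivity
  have hδ : 0 < c * ε / (Fintype.card Λ + 1) := by positivity
  obtain ⟨K, hK, hKe⟩ := exists_subspace (fun α => ∑ j, (T α j : ℂ) • C j)
    (fun α => tendsto_sNum hp0 _ (hfin α)) hδ
  have herr : ∀ j, ‖err K (C j)‖ ≤ ε := by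
    intro j
    have h1 : ‖err K (∑ α, (T α j : ℂ) • ∑ k, (T α k : ℂ) • C k)‖ ≤ c * ε := by
      refine (norm_err_sum_le K (a := fun α => T α j) (fun α => hT1 α j) _ hKe).trans ?_
      have hcε : 0 < c * ε := by positivity
      rw [mul_div_assoc', div_le_iff₀ hcard]
      nlinarith
    rw [col_inverse hort C j] at h1
    have h2 : err K ((c : ℂ) • C j) = (c : ℂ) • err K (C j) := by
      ext x
      simp only [err_apply, _root_.smul_apply, map_smul, smul_sub]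
    rw [h2, norm_smul, Complex.norm_real, Real.norm_eq_abs, abs_of_pos hc] at h1
    exact le_of_mul_le_mul_left h1 hc
  have main := clarkson_one hc hort hT1 hp2 hpq (fun j => (cmp K (C j) : K →ₗ[ℂ] K))
  have hsum : ∀ α, ∑ j, (T α j : ℂ) • (cmp K (C j) : K →ₗ[ℂ] K) =
      (cmp K (∑ j, (T α j : ℂ) • C j) : K →ₗ[ℂ] K) := fun α => (cmp_sum K (T α) C).symm
  simp only [hsum] at main
  calc ENNReal.ofReal c * (∑ j, ∑ i ∈ range m, (sNum (C j) i - ENNReal.ofReal ε) ^ p) ^ (q / p)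
      ≤ ENNReal.ofReal c * (∑ j, ENNReal.ofReal (sp p (cmp K (C j) : K →ₗ[ℂ] K))) ^ (q / p) := by
        gcongr with j _
        exact trunc_le K hp0 _ (herr j) m
    _ = ENNReal.ofReal (c * (∑ j, sp p (cmp K (C j) : K →ₗ[ℂ] K)) ^ (q / p)) := by
        rw [ENNReal.ofReal_mul hc.le, ← ENNReal.ofReal_rpow_of_nonneg
          (sum_nonneg fun j _ => sp_nonneg _ _) hqp.le,
          ENNReal.ofReal_sum_of_nonneg fun j _ => sp_nonneg _ _]
    _ ≤ ENNReal.ofReal (∑ α, sp p (cmp K (∑ j, (T α j : ℂ) • C j) : K →ₗ[ℂ] K) ^ (q / p)) :=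
        ENNReal.ofReal_le_ofReal main
    _ = ∑ α, ENNReal.ofReal (sp p (cmp K (∑ j, (T α j : ℂ) • C j) : K →ₗ[ℂ] K)) ^ (q / p) := by
        rw [ENNReal.ofReal_sum_of_nonneg fun α _ => Real.rpow_nonneg (sp_nonneg _ _) _]
        exact sum_congr rfl fun α _ => (ENNReal.ofReal_rpow_of_nonneg (sp_nonneg _ _) hqp.le).symm
    _ ≤ ∑ α, (∑' i, sNum (∑ j, (T α j : ℂ) • C j) i ^ p) ^ (q / p) :=
        sum_le_sum fun α _ => ENNReal.rpow_le_rpow (ofReal_sp_le K hp0 _) hqp.le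

end Pool.Agent.Lib.MP_5deb6a_an
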