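import Pool.Agent.Lib.MP_5deb6a_an.Core

/-!
# MP_5deb6a_an: the interpolated bilinear inequality

The sum `bil T e f u v a b` is bounded on `Re z = 0` by the Hilbert-Schmidt estimate, on
`Re z = 1` by the sum of the products of the coefficients.
-/

set_option autoImplicit false

namespace Pool.Agent.Lib.MP_5deb6a_an

open Complex Finset
open scoped InnerProductSpace

variable {K : Type*} [NormedAddCommGroup K] [InnerProductSpace ℂ K]
  {ι : Type*} [Fintype ι] {J Λ : Type*} [Fintype J] [Fintype Λ]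

/-- the bilinear sum -/
noncomputable def bil (T : Λ → J → ℝ) (e f : J → OrthonormalBasis ι ℂ K)
    (u v : Λ → OrthonormalBasis ι ℂ K) (a : J → ι → ℂ) (b : Λ → ι → ℂ) : ℂ :=
  ∑ α, ∑ j, ∑ i, ∑ l, (T α j : ℂ) * a j i * b α l * (⟪e j i, u α l⟫_ℂ * ⟪v α l, f j i⟫_ℂ)

theorem bil_eq (T : Λ → J → ℝ) (e f : J → OrthonormalBasis ι ℂ K)
    (u v : Λ → OrthonormalBasis ι ℂ K) (a : J → ι → ℂ) (b : Λ → ι → ℂ) :
    bil T e f u v a b =
      ∑ α, ∑ l, b α l * ⟪v α l, ∑ j, (T α j : ℂ) • dg (a j) (e j) (f j) (u α l)⟫_ℂ := by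
  unfold bil
  refine sum_congr rfl fun α _ => ?_
  have h : ∀ l, b α l * ⟪v α l, ∑ j, (T α j : ℂ) • dg (a j) (e j) (f j) (u α l)⟫_ℂ =
      ∑ j, ∑ i, (T α j : ℂ) * a j i * b α l * (⟪e j i, u α l⟫_ℂ * ⟪v α l, f j i⟫_ℂ) := by
    intro l
    rw [inner_sum, mul_sum]
    refine sum_congr rfl fun j _ => ?_
    rw [inner_smul_right, dg_apply, inner_sum, mul_sum, mul_sum]
    refine sum_congr rfl fun i _ => ?_
    rw [inner_smul_right]
    ring
  rw [sum_congr rfl fun l _ => h l]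
  symm
  rw [sum_comm]
  refine sum_congr rfl fun j _ => ?_
  rw [sum_comm]

/-- Hilbert-Schmidt estimate -/
theorem norm_bil_le_two [FiniteDimensional ℂ K] [Nonempty Λ] {T : Λ → J → ℝ} {c : ℝ}
    (hT : ∀ x : J → K, ∑ α, ‖∑ j, (T α j : ℂ) • x j‖ ^ 2 = c * ∑ j, ‖x j‖ ^ 2)
    (e f : J → OrthonormalBasis ι ℂ K)
    (u v : Λ → OrthonormalBasis ι ℂ K) (a : J → ι → ℂ) (b : Λ → ι → ℂ) :
    ‖bil T e f u v a b‖ ≤
      Real.sqrt (∑ α, ∑ l, ‖b α l‖ ^ 2) * Real.sqrt (c * ∑ j, ∑ i, ‖a j i‖ ^ 2) := by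
  classical
  rw [bil_eq]
  set Z : Λ → K →ₗ[ℂ] K := fun α => ∑ j, (T α j : ℂ) • dg (a j) (e j) (f j) with hZ
  have hZa : ∀ α x, Z α x = ∑ j, (T α j : ℂ) • dg (a j) (e j) (f j) x := by
    intro α x
    rw [hZ]
    simp only [LinearMap.sum_apply, LinearMap.smul_apply]
  have h1 : ‖∑ α, ∑ l, b α l * ⟪v α l, ∑ j, (T α j : ℂ) • dg (a j) (e j) (f j) (u α l)⟫_ℂ‖ ≤
      ∑ α, ∑ l, ‖b α l‖ * ‖Z α (u α l)‖ := by
    refine (norm_sum_le _ _).trans (sum_le_sum fun α _ => (norm_sum_le _ _).trans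
      (sum_le_sum fun l _ => ?_))
    rw [norm_mul, ← hZa]
    refine mul_le_mul_of_nonneg_left ?_ (norm_nonneg _)
    refine (norm_inner_le_norm _ _).trans ?_
    rw [(v α).norm_eq_one, one_mul]
  have h2 : ∑ α, ∑ l, ‖Z α (u α l)‖ ^ 2 = c * ∑ j, ∑ i, ‖a j i‖ ^ 2 := by
    obtain ⟨α₀⟩ := ‹Nonempty Λ›
    have h3 : ∀ α, ∑ l, ‖Z α (u α l)‖ ^ 2 = ∑ l, ‖Z α (u α₀ l)‖ ^ 2 := fun α =>
      hs_basis (Z α) (u α) (u α₀)
    rw [sum_congr rfl fun α _ => h3 α, sum_comm]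
    have h4 : ∀ l, ∑ α, ‖Z α (u α₀ l)‖ ^ 2 = c * ∑ j, ‖dg (a j) (e j) (f j) (u α₀ l)‖ ^ 2 := by
      intro l
      rw [← hT fun j => dg (a j) (e j) (f j) (u α₀ l)]
      refine sum_congr rfl fun α _ => ?_
      rw [hZa]
    rw [sum_congr rfl fun l _ => h4 l, ← mul_sum, sum_comm]
    congr 1
    refine sum_congr rfl fun j _ => ?_
    rw [hs_basis (dg (a j) (e j) (f j)) (u α₀) (e j)]
    refine sum_congr rfl fun i _ => ?_
    rw [dg_basis, norm_smul, (f j).norm_eq_one, mul_one]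
  refine h1.trans ?_
  rw [← h2, ← sum_product', ← sum_product', ← sum_product']
  exact Real.sum_mul_le_sqrt_mul_sqrt _ (fun x : Λ × ι => ‖b x.1 x.2‖)
    (fun x : Λ × ι => ‖Z x.1 (u x.1 x.2)‖)

/-- the sum of the products of the coefficients of two bases with two unit vectors -/
theorem sum_norm_inner_le (u v : OrthonormalBasis ι ℂ K) (x y : K) (hx : ‖x‖ = 1) (hy : ‖y‖ = 1) :
    ∑ l, ‖⟪x, u l⟫_ℂ‖ * ‖⟪v l, y⟫_ℂ‖ ≤ 1 := by
  have h1 : ∑ l, ‖⟪x, u l⟫_ℂ‖ ^ 2 = 1 := by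
    rw [u.sum_sq_norm_inner_left, hx, one_pow]
  have h2 : ∑ l, ‖⟪v l, y⟫_ℂ‖ ^ 2 = 1 := by
    rw [v.sum_sq_norm_inner_right, hy, one_pow]
  have h3 := Real.sum_mul_le_sqrt_mul_sqrt univ (fun l => ‖⟪x, u l⟫_ℂ‖) (fun l => ‖⟪v l, y⟫_ℂ‖)
  rwa [h1, h2, Real.sqrt_one, one_mul] at h3

/-- trace class estimate -/
theorem norm_bil_le_one {T : Λ → J → ℝ} (hT1 : ∀ α j, |T α j| ≤ 1)
    (e f : J → OrthonormalBasis ι ℂ K)
    (u v : Λ → OrthonormalBasis ι ℂ K) (a : J → ι → ℂ) (b : Λ → ι → ℂ) {w : Λ → ℝ}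
    (hb : ∀ α l, ‖b α l‖ ≤ w α) :
    ‖bil T e f u v a b‖ ≤ (∑ α, w α) * ∑ j, ∑ i, ‖a j i‖ := by
  unfold bil
  rw [sum_mul]
  refine (norm_sum_le _ _).trans (sum_le_sum fun α _ => ?_)
  rw [mul_sum]
  refine (norm_sum_le _ _).trans (sum_le_sum fun j _ => ?_)
  rw [mul_sum]
  refine (norm_sum_le _ _).trans (sum_le_sum fun i _ => ?_)
  have hw : 0 ≤ w α := (norm_nonneg _).trans (hb α i)
  have h0 := sum_norm_inner_le (u α) (v α) (e j i) (f j i) ((e j).norm_eq_one i)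
    ((f j).norm_eq_one i)
  calc ‖∑ l, (T α j : ℂ) * a j i * b α l * (⟪e j i, u α l⟫_ℂ * ⟪v α l, f j i⟫_ℂ)‖
      ≤ ∑ l, w α * ‖a j i‖ * (‖⟪e j i, u α l⟫_ℂ‖ * ‖⟪v α l, f j i⟫_ℂ‖) := by
        refine (norm_sum_le _ _).trans (sum_le_sum fun l _ => ?_)
        rw [norm_mul, norm_mul, norm_mul, norm_mul, Complex.norm_real, Real.norm_eq_abs]
        refine mul_le_mul_of_nonneg_right ?_ (by positivity)
        have h1 := hT1 α j
        have h2 := hb α l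
        calc |T α j| * ‖a j i‖ * ‖b α l‖ ≤ 1 * ‖a j i‖ * w α := by
              gcongr
          _ = w α * ‖a j i‖ := by ring
    _ = w α * ‖a j i‖ * ∑ l, ‖⟪e j i, u α l⟫_ℂ‖ * ‖⟪v α l, f j i⟫_ℂ‖ := by rw [mul_sum]
    _ ≤ w α * ‖a j i‖ * 1 := by
        refine mul_le_mul_of_nonneg_left h0 (by positivity)
    _ = w α * ‖a j i‖ := mul_one _

/-- a crude bound -/
theorem norm_bil_le_crude {T : Λ → J → ℝ} (hT1 : ∀ α j, |T α j| ≤ 1)
    (e f : J → OrthonormalBasis ι ℂ K)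
    (u v : Λ → OrthonormalBasis ι ℂ K) (a : J → ι → ℂ) (b : Λ → ι → ℂ) {w : Λ → ℝ}
    {x : J → ι → ℝ} (ha : ∀ j i, ‖a j i‖ ≤ x j i)
    (hb : ∀ α l, ‖b α l‖ ≤ w α) (hw : ∀ α, 0 ≤ w α) :
    ‖bil T e f u v a b‖ ≤ (∑ α, w α) * ∑ j, ∑ i, x j i := by
  refine (norm_bil_le_one hT1 e f u v a b hb).trans ?_
  refine mul_le_mul_of_nonneg_left ?_ (sum_nonneg fun α _ => hw α)
  exact sum_le_sum fun j _ => sum_le_sum fun i _ => ha j i

/-- the interpolated bilinear inequality: `r` in `(1, 2]`, `1 / r + 1 / r' = 1` -/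
theorem bil_interp [FiniteDimensional ℂ K] [Nonempty Λ] {T : Λ → J → ℝ} {c : ℝ} (hc : 0 ≤ c)
    (hT : ∀ x : J → K, ∑ α, ‖∑ j, (T α j : ℂ) • x j‖ ^ 2 = c * ∑ j, ‖x j‖ ^ 2)
    (hT1 : ∀ α j, |T α j| ≤ 1)
    (e f : J → OrthonormalBasis ι ℂ K) (u v : Λ → OrthonormalBasis ι ℂ K)
    {x : J → ι → ℝ} {w : Λ → ℝ} {y : Λ → ι → ℝ}
    (hx : ∀ j i, 0 ≤ x j i) (hw : ∀ α, 0 ≤ w α) (hy : ∀ α l, 0 ≤ y α l)
    (hy1 : ∀ α, ∑ l, y α l ≤ 1) {r r' : ℝ} (hr : 1 < r) (hr2 : r ≤ 2) (hrr : 1 / r + 1 / r' = 1) :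
    ‖bil T e f u v (fun j i => ((x j i ^ (1 / r) : ℝ) : ℂ))
      (fun α l => ((w α ^ (1 / r) * y α l ^ (1 / r') : ℝ) : ℂ))‖ ≤
      c ^ (1 / r') * (∑ j, ∑ i, x j i) ^ (1 / r) * (∑ α, w α) ^ (1 / r) := by
  have hr0 : 0 < r := by linarith
  have hrinv : 1 / r < 1 := by
    rw [div_lt_one hr0]
    exact hr
  have hrinv2 : 1 / 2 ≤ 1 / r := one_div_le_one_div_of_le hr0 hr2
  have hr' : 1 / r' = 1 - 1 / r := by linarith
  have hr'0 : 0 < 1 / r' := by linarith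
  set F : ℂ → ℂ := fun z => bil T e f u v (fun j i => pw (x j i) ((1 + z) / 2))
    (fun α l => pw (w α) ((1 + z) / 2) * pw (y α l) ((1 - z) / 2)) with hF
  have hy1' : ∀ α l, y α l ≤ 1 := fun α l =>
    (single_le_sum (fun l _ => hy α l) (mem_univ l)).trans (hy1 α)
  have hre1 : ∀ z : ℂ, ((1 + z) / 2).re = (1 + z.re) / 2 := by
    intro z
    rw [show (1 + z) / 2 = ((1 / 2 : ℝ) : ℂ) * (1 + z) by push_cast; ring, Complex.re_ofReal_mul]
    simp only [Complex.add_re, Complex.one_re]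
    ring
  have hre2 : ∀ z : ℂ, ((1 - z) / 2).re = (1 - z.re) / 2 := by
    intro z
    rw [show (1 - z) / 2 = ((1 / 2 : ℝ) : ℂ) * (1 - z) by push_cast; ring, Complex.re_ofReal_mul]
    simp only [Complex.sub_re, Complex.one_re]
    ring
  have hdiff : Differentiable ℂ F := by
    rw [hF]
    unfold bil
    refine Differentiable.fun_sum fun α _ => Differentiable.fun_sum fun j _ =>
      Differentiable.fun_sum fun i _ => Differentiable.fun_sum fun l _ => ?_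
    have h1 : Differentiable ℂ fun z : ℂ => (1 + z) / 2 := by fun_prop
    have h2 : Differentiable ℂ fun z : ℂ => (1 - z) / 2 := by fun_prop
    have h3 := differentiable_pw (x j i) h1
    have h4 := differentiable_pw (w α) h1
    have h5 := differentiable_pw (y α l) h2
    exact ((h3.const_mul _).mul (h4.mul h5)).mul_const _
  set X : ℝ := ∑ j, ∑ i, x j i with hX
  set W : ℝ := ∑ α, w α with hW
  have hX0 : 0 ≤ X := sum_nonneg fun j _ => sum_nonneg fun i _ => hx j i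
  have hW0 : 0 ≤ W := sum_nonneg fun α _ => hw α
  have hB0 : ∀ z ∈ re ⁻¹' ({0} : Set ℝ), ‖F z‖ ≤ Real.sqrt W * Real.sqrt (c * X) := by
    intro z hz
    have hz' : z.re = 0 := hz
    have e1 : ((1 + z) / 2).re = 1 / 2 := by rw [hre1, hz']; ring
    have e2 : ((1 - z) / 2).re = 1 / 2 := by rw [hre2, hz']; ring
    have hhalf : ∀ t : ℝ, 0 ≤ t → (t ^ (1 / 2 : ℝ)) ^ 2 = t := by
      intro t ht
      rw [← Real.sqrt_eq_rpow, Real.sq_sqrt ht]
    refine (norm_bil_le_two hT e f u v _ _).trans ?_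
    refine mul_le_mul (Real.sqrt_le_sqrt ?_) (Real.sqrt_le_sqrt (le_of_eq ?_))
      (Real.sqrt_nonneg _) (Real.sqrt_nonneg _)
    · refine sum_le_sum fun α _ => ?_
      calc ∑ l, ‖pw (w α) ((1 + z) / 2) * pw (y α l) ((1 - z) / 2)‖ ^ 2
          = ∑ l, w α * y α l := by
            refine sum_congr rfl fun l _ => ?_
            rw [norm_mul, mul_pow, norm_pw_of_ne (hw α) (by rw [e1]; norm_num),
              norm_pw_of_ne (hy α l) (by rw [e2]; norm_num), e1, e2, hhalf _ (hw α),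
              hhalf _ (hy α l)]
        _ = w α * ∑ l, y α l := by rw [mul_sum]
        _ ≤ w α * 1 := mul_le_mul_of_nonneg_left (hy1 α) (hw α)
        _ = w α := mul_one _
    · congr 1
      refine sum_congr rfl fun j _ => sum_congr rfl fun i _ => ?_
      rw [norm_pw_of_ne (hx j i) (by rw [e1]; norm_num), e1, hhalf _ (hx j i)]
  have hB1 : ∀ z ∈ re ⁻¹' ({1} : Set ℝ), ‖F z‖ ≤ W * X := by
    intro z hz
    have hz' : z.re = 1 := hz
    have e1 : ((1 + z) / 2).re = 1 := by rw [hre1, hz']; ring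
    have e2 : ((1 - z) / 2).re = 0 := by rw [hre2, hz']; ring
    refine norm_bil_le_crude hT1 e f u v _ _ (fun j i => le_of_eq ?_) (fun α l => ?_) hw
    · rw [norm_pw_of_ne (hx j i) (by rw [e1]; norm_num), e1, Real.rpow_one]
    · rw [norm_mul, norm_pw_of_ne (hw α) (by rw [e1]; norm_num), e1, Real.rpow_one]
      calc w α * ‖pw (y α l) ((1 - z) / 2)‖ ≤ w α * 1 :=
            mul_le_mul_of_nonneg_left (norm_pw_le_one (hy α l) e2) (hw α)
        _ = w α := mul_one _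
  have hbdd : BddAbove ((norm ∘ F) '' Complex.HadamardThreeLines.verticalClosedStrip 0 1) := by
    refine ⟨(∑ α, (1 + w α) * 2) * ∑ j, ∑ i, (1 + x j i), ?_⟩
    rintro t ⟨z, hz, rfl⟩
    have hz' : z.re ∈ Set.Icc (0 : ℝ) 1 := hz
    have e1 : 0 ≤ ((1 + z) / 2).re := by rw [hre1]; linarith [hz'.1]
    have e1' : ((1 + z) / 2).re ≤ 1 := by rw [hre1]; linarith [hz'.2]
    have e2 : 0 ≤ ((1 - z) / 2).re := by rw [hre2]; linarith [hz'.2]
    have e2' : ((1 - z) / 2).re ≤ 1 := by rw [hre2]; linarith [hz'.1]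
    refine norm_bil_le_crude hT1 e f u v _ _ (fun j i => norm_pw_bound (hx j i) e1 e1')
      (fun α l => ?_) (fun α => by have := hw α; positivity)
    rw [norm_mul]
    have h1 := norm_pw_bound (hw α) e1 e1'
    have h2 := norm_pw_bound (hy α l) e2 e2'
    have h3 := hy1' α l
    have h4 := hw α
    refine mul_le_mul h1 (by linarith) (norm_nonneg _) (by linarith)
  have hθ : ((2 / r - 1 : ℝ) : ℂ) ∈ Complex.HadamardThreeLines.verticalClosedStrip 0 1 := by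
    have : ((2 / r - 1 : ℝ) : ℂ).re ∈ Set.Icc (0 : ℝ) 1 := by
      rw [Complex.ofReal_re]
      have h2r : 2 / r = 2 * (1 / r) := by ring
      constructor
      · rw [h2r]; linarith
      · rw [h2r]; linarith
    exact this
  have main := Complex.HadamardThreeLines.norm_le_interp_of_mem_verticalClosedStrip₀₁' F hθ
    hdiff.diffContOnCl hbdd hB0 hB1
  rw [Complex.ofReal_re] at main
  have hFθ : F ((2 / r - 1 : ℝ) : ℂ) = bil T e f u v (fun j i => ((x j i ^ (1 / r) : ℝ) : ℂ))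
      (fun α l => ((w α ^ (1 / r) * y α l ^ (1 / r') : ℝ) : ℂ)) := by
    have g1 : (1 + ((2 / r - 1 : ℝ) : ℂ)) / 2 = ((1 / r : ℝ) : ℂ) := by
      push_cast
      ring
    have g2 : (1 - ((2 / r - 1 : ℝ) : ℂ)) / 2 = ((1 / r' : ℝ) : ℂ) := by
      rw [hr']
      push_cast
      ring
    rw [hF]
    simp only [g1, g2]
    unfold bil
    refine sum_congr rfl fun α _ => sum_congr rfl fun j _ => sum_congr rfl fun i _ =>
      sum_congr rfl fun l _ => ?_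
    have hr0' : 1 / r ≠ 0 := by positivity
    beta_reduce
    rw [pw_real (hx j i) hr0', pw_real (hw α) hr0', pw_real (hy α l) hr'0.ne', Complex.ofReal_mul]
  rw [hFθ] at main
  refine main.trans (le_of_eq ?_)
  have e3 : 1 - (2 / r - 1) = 2 * (1 / r') := by rw [hr']; ring
  have e4 : 2 / r - 1 = 1 / r - 1 / r' := by rw [hr']; ring
  rw [e3, Real.mul_rpow (Real.sqrt_nonneg _) (Real.sqrt_nonneg _),
    Real.rpow_mul (Real.sqrt_nonneg _), Real.rpow_mul (Real.sqrt_nonneg _)]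
  rw [Real.rpow_two, Real.rpow_two, Real.sq_sqrt hW0, Real.sq_sqrt (mul_nonneg hc hX0),
    Real.mul_rpow hc hX0, e4, Real.mul_rpow hW0 hX0]
  have e5 : ∀ t : ℝ, 0 ≤ t → t ^ (1 / r') * t ^ (1 / r - 1 / r') = t ^ (1 / r) := by
    intro t ht
    rw [← Real.rpow_add_of_nonneg ht hr'0.le (by linarith)]
    congr 1
    ring
  calc W ^ (1 / r') * (c ^ (1 / r') * X ^ (1 / r')) *
        (W ^ (1 / r - 1 / r') * X ^ (1 / r - 1 / r'))
      = c ^ (1 / r') * (X ^ (1 / r') * X ^ (1 / r - 1 / r')) *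
        (W ^ (1 / r') * W ^ (1 / r - 1 / r')) := by ring
    _ = c ^ (1 / r') * X ^ (1 / r) * W ^ (1 / r) := by rw [e5 X hX0, e5 W hW0]

end Pool.Agent.Lib.MP_5deb6a_an
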