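import Pool.Agent.Lib.MP_5deb6a_an.General

/-!
# MP_5deb6a_an: the matrix of the sum and of the differences, and rank one operators
-/

set_option autoImplicit false

namespace Pool.Agent.Lib.MP_5deb6a_an

open Finset Module Filter Topology
open scoped InnerProductSpace ENNReal

section Mat

variable {n : ℕ}

/-- the index set: the sum, and the pairs `j < k` -/
abbrev Idx (n : ℕ) := Option {x : Fin n × Fin n // x.1 < x.2}

/-- the matrix -/
def mat (n : ℕ) : Idx n → Fin n → ℝ
  | none, _ => 1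
  | some x, j => (if j = x.1.1 then 1 else 0) - (if j = x.1.2 then 1 else 0)

theorem abs_mat_le (α : Idx n) (j : Fin n) : |mat n α j| ≤ 1 := by
  rcases α with _ | x
  · show |(1 : ℝ)| ≤ 1
    rw [abs_one]
  · show |(if j = x.1.1 then (1 : ℝ) else 0) - (if j = x.1.2 then 1 else 0)| ≤ 1
    split_ifs <;> norm_num

theorem two_mul_sum_lt (g : Fin n → Fin n → ℝ) (hs : ∀ a b, g a b = g b a) (h0 : ∀ a, g a a = 0) :
    2 * ∑ x : {x : Fin n × Fin n // x.1 < x.2}, g x.1.1 x.1.2 = ∑ a, ∑ b, g a b := by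
  have h1 : ∑ x : {x : Fin n × Fin n // x.1 < x.2}, g x.1.1 x.1.2 =
      ∑ a, ∑ b, if a < b then g a b else 0 := by
    rw [← sum_product', ← Finset.sum_filter]
    exact (Finset.sum_subtype (univ.filter fun x : Fin n × Fin n => x.1 < x.2)
      (fun x => by simp) (fun x => g x.1 x.2)).symm
  have h2 : ∑ a, ∑ b, g a b = (∑ a, ∑ b, if a < b then g a b else 0) +
      ∑ a, ∑ b, if b < a then g a b else 0 := by
    rw [← sum_add_distrib]
    refine sum_congr rfl fun a _ => ?_
    rw [← sum_add_distrib]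
    refine sum_congr rfl fun b _ => ?_
    rcases lt_trichotomy a b with h | h | h
    · rw [if_pos h, if_neg h.not_gt, add_zero]
    · rw [h, if_neg (lt_irrefl _), h0, add_zero]
    · rw [if_neg h.not_gt, if_pos h, zero_add]
  have h3 : (∑ a, ∑ b, if b < a then g a b else 0) = ∑ a, ∑ b, if a < b then g a b else 0 := by
    rw [sum_comm]
    refine sum_congr rfl fun a _ => sum_congr rfl fun b _ => ?_
    rw [hs b a]
  rw [h1, h2, h3]
  ring

theorem mat_orthogonal (j k : Fin n) :
    ∑ α, mat n α j * mat n α k = if j = k then (n : ℝ) else 0 := by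
  rw [Fintype.sum_option]
  have h1 : mat n none j * mat n none k = 1 := mul_one _
  have h2 : ∀ x : {x : Fin n × Fin n // x.1 < x.2}, mat n (some x) j * mat n (some x) k =
      ((if j = x.1.1 then (1 : ℝ) else 0) - (if j = x.1.2 then 1 else 0)) *
      ((if k = x.1.1 then (1 : ℝ) else 0) - (if k = x.1.2 then 1 else 0)) := fun x => rfl
  have h3 := two_mul_sum_lt (n := n) (fun a b =>
      ((if j = a then (1 : ℝ) else 0) - (if j = b then 1 else 0)) *
      ((if k = a then (1 : ℝ) else 0) - (if k = b then 1 else 0)))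
    (fun a b => by ring) (fun a => by ring)
  have h4 : ∑ a, ∑ b, ((if j = a then (1 : ℝ) else 0) - (if j = b then 1 else 0)) *
      ((if k = a then (1 : ℝ) else 0) - (if k = b then 1 else 0)) =
      2 * ((if j = k then (n : ℝ) else 0) - 1) := by
    have h5 : ∀ a b : Fin n, ((if j = a then (1 : ℝ) else 0) - (if j = b then 1 else 0)) *
      ((if k = a then (1 : ℝ) else 0) - (if k = b then 1 else 0)) =
        (if j = a then (if k = a then (1 : ℝ) else 0) else 0) +
        (if j = b then (if k = b then (1 : ℝ) else 0) else 0) -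
        (if j = a then (1 : ℝ) else 0) * (if k = b then 1 else 0) -
        (if j = b then (1 : ℝ) else 0) * (if k = a then 1 else 0) := by
      intro a b
      split_ifs <;> ring
    simp only [h5, sum_sub_distrib, sum_add_distrib, sum_const, card_univ, Fintype.card_fin,
      ← mul_sum, ← sum_mul, sum_ite_eq, mem_univ, if_true]
    by_cases hjk : j = k
    · subst hjk
      simp
      ring
    · have hkj : ¬ k = j := fun h => hjk h.symm
      simp [hjk, hkj]
      ring
  rw [h1, sum_congr rfl fun x _ => h2 x]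
  beta_reduce at h3
  rw [h4] at h3
  linarith

theorem mat_none {M : Type*} [AddCommGroup M] [Module ℂ M] (A : Fin n → M) :
    ∑ j, (mat n none j : ℂ) • A j = ∑ j, A j := by
  refine sum_congr rfl fun j _ => ?_
  have h : mat n none j = 1 := rfl
  rw [h, Complex.ofReal_one, one_smul]

theorem mat_some {M : Type*} [AddCommGroup M] [Module ℂ M] (A : Fin n → M)
    (x : {x : Fin n × Fin n // x.1 < x.2}) :
    ∑ j, (mat n (some x) j : ℂ) • A j = A x.1.1 - A x.1.2 := by
  have h : ∀ j, (mat n (some x) j : ℂ) • A j =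
      (if j = x.1.1 then A j else 0) - (if j = x.1.2 then A j else 0) := by
    intro j
    have h1 : mat n (some x) j = (if j = x.1.1 then 1 else 0) - (if j = x.1.2 then 1 else 0) := rfl
    rw [h1, Complex.ofReal_sub, sub_smul]
    split_ifs <;> simp
  rw [sum_congr rfl fun j _ => h j, sum_sub_distrib]
  simp

end Mat

section RankOne

variable {H : Type*} [NormedAddCommGroup H] [InnerProductSpace ℂ H]

theorem sNum_zero (A : H →L[ℂ] H) : sNum A 0 = ‖A‖ₑ := by
  refine le_antisymm ?_ (le_iInf₂ fun G hG => ?_)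
  · have h := sNum_le (A := A) (G := 0) (i := 0) (by
      rw [ContinuousLinearMap.toLinearMap_zero, LinearMap.rank_zero]
      exact zero_le)
    rwa [sub_zero] at h
  · have h1 : G = 0 := by
      have h2 : LinearMap.rank (G : H →ₗ[ℂ] H) = 0 := by
        refine le_antisymm ?_ zero_le
        rwa [Nat.cast_zero] at hG
      have h3 : LinearMap.range (G : H →ₗ[ℂ] H) = ⊥ := Submodule.rank_eq_zero.mp h2
      have h4 := LinearMap.range_eq_bot.mp h3
      ext x
      exact congrArg (fun f : H →ₗ[ℂ] H => f x) h4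
    rw [h1, sub_zero]

theorem sNum_eq_zero (A : H →L[ℂ] H) (i : ℕ)
    (h : LinearMap.rank (A : H →ₗ[ℂ] H) ≤ (i : Cardinal)) : sNum A i = 0 := by
  have h1 : sNum A i ≤ ‖A - A‖ₑ := sNum_le h
  have h2 : ‖A - A‖ₑ = 0 := by
    rw [← ofReal_norm, sub_self, norm_zero, ENNReal.ofReal_zero]
  rw [h2] at h1
  exact le_antisymm h1 zero_le

theorem schatten_rank_one {p : ℝ} (hp : 0 < p) (A : H →L[ℂ] H)
    (h : LinearMap.rank (A : H →ₗ[ℂ] H) ≤ 1) : schatten p A = ‖A‖ₑ := by
  unfold schatten
  rw [tsum_eq_single 0]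
  · rw [sNum_zero, ← ENNReal.rpow_mul, mul_one_div_cancel hp.ne', ENNReal.rpow_one]
  · intro i hi
    rw [sNum_eq_zero A i, ENNReal.zero_rpow_of_pos hp]
    refine h.trans ?_
    have h1 : 1 ≤ i := Nat.one_le_iff_ne_zero.mpr hi
    exact_mod_cast h1

/-- a rank one operator of norm one, with real multiples -/
theorem exists_rank_one [Nontrivial H] : ∃ P : H →L[ℂ] H, ∀ a : ℝ, ∀ p : ℝ, 0 < p →
    schatten p ((a : ℂ) • P) = ENNReal.ofReal |a| := by
  obtain ⟨y, hy⟩ := exists_ne (0 : H)
  have hy' : ‖y‖ ≠ 0 := norm_ne_zero_iff.mpr hy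
  set x : H := ((‖y‖⁻¹ : ℝ) : ℂ) • y with hx
  have hx1 : ‖x‖ = 1 := by
    rw [hx, norm_smul, Complex.norm_real, norm_inv, norm_norm, inv_mul_cancel₀ hy']
  refine ⟨(innerSL ℂ x).smulRight x, fun a p hp => ?_⟩
  rw [schatten_rank_one hp]
  · rw [← ofReal_norm, norm_smul, ContinuousLinearMap.norm_smulRight_apply, innerSL_apply_norm,
      hx1, Complex.norm_real, Real.norm_eq_abs, mul_one, mul_one]
  · have h1 : (((a : ℂ) • (innerSL ℂ x).smulRight x : H →L[ℂ] H) : H →ₗ[ℂ] H) =
        (LinearMap.toSpanSingleton ℂ H ((a : ℂ) • x)).comp ((innerSL ℂ x : H →L[ℂ] ℂ) : H →ₗ[ℂ] ℂ) := by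
      refine LinearMap.ext fun z => ?_
      show (a : ℂ) • (⟪x, z⟫_ℂ • x) = ⟪x, z⟫_ℂ • ((a : ℂ) • x)
      exact smul_comm _ _ _
    rw [h1]
    refine (LinearMap.rank_comp_le_left _ _).trans ?_
    have h2 := _root_.lift_rank_range_le (LinearMap.toSpanSingleton ℂ H ((a : ℂ) • x))
    rw [rank_self, Cardinal.lift_one] at h2
    exact (Cardinal.lift_le_one_iff).mp h2

end RankOne

end Pool.Agent.Lib.MP_5deb6a_an
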