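import Pool.Agent.Lib.MP_5deb6a_an.Pairs

/-!
# MP_5deb6a_an: the sum and the differences of an `n`-tuple of operators
-/

set_option autoImplicit false

namespace Pool.Agent.Lib.MP_5deb6a_an

open Finset
open scoped ENNReal

variable {H : Type*} [NormedAddCommGroup H] [InnerProductSpace ℂ H]

theorem schatten_rpow_self {p : ℝ} (hp : 0 < p) (A : H →L[ℂ] H) :
    schatten p A ^ p = ∑' i, sNum A i ^ p := by
  unfold schatten
  rw [← ENNReal.rpow_mul, one_div_mul_cancel hp.ne', ENNReal.rpow_one]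

theorem schatten_rpow {p : ℝ} (q : ℝ) (A : H →L[ℂ] H) :
    schatten p A ^ q = (∑' i, sNum A i ^ p) ^ (q / p) := by
  unfold schatten
  rw [← ENNReal.rpow_mul, one_div_mul_eq_div]

theorem right_side {n : ℕ} (p q : ℝ) (A : Fin n → H →L[ℂ] H) :
    schatten p (∑ j, A j) ^ q +
      ∑ x ∈ (univ : Finset (Fin n × Fin n)).filter (fun x => x.1 < x.2),
        schatten p (A x.1 - A x.2) ^ q =
    ∑ α : Idx n, (∑' i, sNum (∑ j, (mat n α j : ℂ) • A j) i ^ p) ^ (q / p) := by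
  rw [Fintype.sum_option, mat_none, schatten_rpow]
  congr 1
  rw [Finset.sum_subtype (p := fun x : Fin n × Fin n => x.1 < x.2)
    ((univ : Finset (Fin n × Fin n)).filter fun x => x.1 < x.2)
    (fun x => by simp) (fun x => schatten p (A x.1 - A x.2) ^ q)]
  refine sum_congr rfl fun x _ => ?_
  rw [mat_some, schatten_rpow]

theorem left_side {n : ℕ} {p : ℝ} (hp : 0 < p) (q : ℝ) (A : Fin n → H →L[ℂ] H) :
    (n : ℝ≥0∞) * (∑ j, schatten p (A j) ^ p) ^ (q / p) =
      ENNReal.ofReal (n : ℝ) * (∑ j, ∑' i, sNum (A j) i ^ p) ^ (q / p) := by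
  rw [ENNReal.ofReal_natCast]
  congr 2
  exact sum_congr rfl fun j _ => schatten_rpow_self hp (A j)

/-- for `0 < p < 1` the second inequality fails -/
theorem fails_below_one [Nontrivial H] (n : ℕ) (hn : 2 ≤ n) (p q : ℝ) (hp0 : 0 < p) (hp1 : p < 1)
    (hpq : 1 / p + 1 / q = 1) : ∃ A : Fin n → H →L[ℂ] H,
      (∀ j, 0 < schatten p (A j) ∧ schatten p (A j) < ⊤) ∧
      (0 < schatten p (∑ j, A j) ∧ schatten p (∑ j, A j) < ⊤) ∧
      (∀ j k, j ≠ k → 0 < schatten p (A j - A k) ∧ schatten p (A j - A k) < ⊤) ∧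
      (n : ℝ≥0∞) * (∑ j, schatten p (A j) ^ p) ^ (q / p) <
        schatten p (∑ j, A j) ^ q +
          ∑ x ∈ (univ : Finset (Fin n × Fin n)).filter (fun x => x.1 < x.2),
            schatten p (A x.1 - A x.2) ^ q := by
  obtain ⟨P, hP⟩ := exists_rank_one (H := H)
  have hpinv : 1 < 1 / p := by
    rw [lt_div_iff₀ hp0, one_mul]
    exact hp1
  have hqinv : 1 / q < 0 := by linarith
  have hq : q < 0 := one_div_neg.mp hqinv
  have hn0 : (0 : ℝ) < (n : ℝ) + 1 := by positivity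
  set δ : ℝ := ((n : ℝ) + 1) ^ (1 / q) with hδ
  have hδ0 : 0 < δ := Real.rpow_pos_of_pos hn0 _
  have hδq : δ ^ q = (n : ℝ) + 1 := by
    rw [hδ, ← Real.rpow_mul hn0.le, one_div_mul_cancel hq.ne, Real.rpow_one]
  set a : Fin n → ℝ := fun j => 1 + (j : ℕ) * δ with ha
  have ha1 : ∀ j, 1 ≤ a j := fun j => by
    rw [ha]
    have : 0 ≤ ((j : ℕ) : ℝ) * δ := by positivity
    linarith
  have hA : ∀ j, schatten p ((a j : ℂ) • P) = ENNReal.ofReal |a j| := fun j => hP _ _ hp0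
  have hdiff : ∀ j k, schatten p ((a j : ℂ) • P - (a k : ℂ) • P) =
      ENNReal.ofReal |a j - a k| := by
    intro j k
    rw [← hP _ _ hp0, Complex.ofReal_sub, sub_smul]
  have hsum : schatten p (∑ j, (a j : ℂ) • P) = ENNReal.ofReal |∑ j, a j| := by
    rw [← hP _ _ hp0, Complex.ofReal_sum, sum_smul]
  have hsum1 : 1 ≤ ∑ j, a j := by
    have h1 : ∀ j ∈ (univ : Finset (Fin n)), 0 ≤ a j := fun j _ => by linarith [ha1 j]
    exact (ha1 ⟨0, by omega⟩).trans (single_le_sum h1 (mem_univ _))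
  refine ⟨fun j => (a j : ℂ) • P, fun j => ?_, ?_, fun j k hjk => ?_, ?_⟩
  · rw [hA, ENNReal.ofReal_pos]
    exact ⟨abs_pos.mpr (by linarith [ha1 j]), ENNReal.ofReal_lt_top⟩
  · rw [hsum, ENNReal.ofReal_pos]
    exact ⟨abs_pos.mpr (by linarith), ENNReal.ofReal_lt_top⟩
  · beta_reduce
    rw [hdiff, ENNReal.ofReal_pos]
    refine ⟨abs_pos.mpr ?_, ENNReal.ofReal_lt_top⟩
    intro h
    have h1 : (((j : ℕ) : ℝ) - ((k : ℕ) : ℝ)) * δ = 0 := by
      rw [ha] at h
      linear_combination h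
    rcases mul_eq_zero.mp h1 with h2 | h2
    · refine hjk (Fin.ext ?_)
      exact_mod_cast sub_eq_zero.mp h2
    · exact hδ0.ne' h2
  · beta_reduce
    have hL : (n : ℝ≥0∞) * (∑ j, schatten p ((a j : ℂ) • P) ^ p) ^ (q / p) ≤ (n : ℝ≥0∞) := by
      have h1 : (1 : ℝ≥0∞) ≤ ∑ j, schatten p ((a j : ℂ) • P) ^ p := by
        have h2 : (1 : ℝ≥0∞) ≤ schatten p ((a ⟨0, by omega⟩ : ℂ) • P) ^ p := by
          rw [hA]
          have h3 : (1 : ℝ≥0∞) ≤ ENNReal.ofReal |a ⟨0, by omega⟩| := by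
            rw [ENNReal.one_le_ofReal]
            exact (ha1 _).trans (le_abs_self _)
          exact ENNReal.one_le_rpow h3 hp0
        exact h2.trans (single_le_sum (f := fun j => schatten p ((a j : ℂ) • P) ^ p)
          (fun _ _ => zero_le) (mem_univ _))
      have h4 : (∑ j, schatten p ((a j : ℂ) • P) ^ p) ^ (q / p) ≤ 1 :=
        ENNReal.rpow_le_one_of_one_le_of_neg h1 (div_neg_of_neg_of_pos hq hp0)
      calc (n : ℝ≥0∞) * (∑ j, schatten p ((a j : ℂ) • P) ^ p) ^ (q / p) ≤ (n : ℝ≥0∞) * 1 := by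
            gcongr
        _ = (n : ℝ≥0∞) := mul_one _
    have hR : ((n : ℝ≥0∞) + 1) ≤ schatten p (∑ j, (a j : ℂ) • P) ^ q +
        ∑ x ∈ (univ : Finset (Fin n × Fin n)).filter (fun x => x.1 < x.2),
          schatten p ((a x.1 : ℂ) • P - (a x.2 : ℂ) • P) ^ q := by
      refine le_trans ?_ le_add_self
      have h1 : ((⟨0, by omega⟩, ⟨1, by omega⟩) : Fin n × Fin n) ∈
          (univ : Finset (Fin n × Fin n)).filter (fun x => x.1 < x.2) := by
        rw [mem_filter]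
        exact ⟨mem_univ _, Fin.mk_lt_mk.mpr Nat.zero_lt_one⟩
      refine le_trans (le_of_eq ?_) (single_le_sum
        (f := fun x : Fin n × Fin n => schatten p ((a x.1 : ℂ) • P - (a x.2 : ℂ) • P) ^ q)
        (fun _ _ => zero_le) h1)
      rw [hdiff]
      have h2 : a ⟨0, by omega⟩ - a ⟨1, by omega⟩ = -δ := by
        rw [ha]
        simp
      rw [h2, abs_neg, abs_of_pos hδ0, ENNReal.ofReal_rpow_of_pos hδ0, hδq,
        ENNReal.ofReal_add (by positivity) zero_le_one, ENNReal.ofReal_natCast, ENNReal.ofReal_one]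
    refine hL.trans_lt (lt_of_lt_of_le ?_ hR)
    exact ENNReal.lt_add_right (ENNReal.natCast_ne_top n) one_ne_zero

end Pool.Agent.Lib.MP_5deb6a_an
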